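import Pool.Agent.Y319.CG.LozB
import Pool.Agent.W588.HT.Core
import Pool.Agent.W583.HTSeq
import Pool.Agent.W469.HT.Mwk

/-!
# CB3-G-LOZ: the saddle point method
-/

set_option autoImplicit false

namespace Pool.Agent.Y319.CG

open Finset Filter Topology Metric MeasureTheory
open Pool.Agent.W711.HT Pool.Agent.Y472
open scoped Real

/-- the real part of a function with nearly constant second derivative -/
theorem conc {U : Set ℂ} (hU : Convex ℝ U) {Q Q1 Q2 : ℂ → ℂ} (d1 : ∀ z ∈ U, HasDerivAt Q (Q1 z) z)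
    (d2 : ∀ z ∈ U, HasDerivAt Q1 (Q2 z) z) {m : ℂ} (hm : 0 < m.re)
    (hb : ∀ z ∈ U, ‖Q2 z + m‖ ≤ m.re / 8) {z₀ : ℂ} (hz₀ : z₀ ∈ U) (hcr : Q1 z₀ = 0) {z : ℂ}
    (hz : z ∈ U) : (Q z).re ≤ (Q z₀).re - m.re / 4 * (z.re - z₀.re) ^ 2 +
      3 * ‖m‖ ^ 2 / m.re * (z.im - z₀.im) ^ 2 := by
  have p1 : ∀ w ∈ U, HasDerivAt (fun w => Q1 w + m * (w - z₀)) (Q2 w + m) w := by
    intro w hw
    refine ((d2 w hw).add (((hasDerivAt_id w).sub_const z₀).const_mul m)).congr_deriv ?_
    ring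
  have b1 : ∀ w ∈ U, ‖Q1 w + m * (w - z₀)‖ ≤ m.re / 8 * ‖w - z₀‖ := by
    intro w hw
    have := Convex.norm_image_sub_le_of_norm_hasDerivWithin_le
      (f := fun w => Q1 w + m * (w - z₀)) (f' := fun w => Q2 w + m) (s := U)
      (fun x hx => (p1 x hx).hasDerivWithinAt) hb hU hz₀ hw
    simp only [sub_self, mul_zero, add_zero, hcr, sub_zero] at this
    exact this
  have p2 : ∀ w ∈ U, HasDerivAt (fun w => Q w + m * (w - z₀) ^ 2 / 2) (Q1 w + m * (w - z₀)) w := by
    intro w hw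
    refine ((d1 w hw).add (((((hasDerivAt_id w).sub_const z₀).pow 2).const_mul m).div_const
      2)).congr_deriv ?_
    simp
    ring
  have hseg : segment ℝ z₀ z ⊆ U := hU.segment_subset hz₀ hz
  have b2 : ‖(Q z + m * (z - z₀) ^ 2 / 2) - Q z₀‖ ≤ m.re / 8 * ‖z - z₀‖ * ‖z - z₀‖ := by
    have := Convex.norm_image_sub_le_of_norm_hasDerivWithin_le
      (f := fun w => Q w + m * (w - z₀) ^ 2 / 2) (f' := fun w => Q1 w + m * (w - z₀))
      (s := segment ℝ z₀ z) (C := m.re / 8 * ‖z - z₀‖)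
      (fun x hx => (p2 x (hseg hx)).hasDerivWithinAt) (fun x hx => ?_) (convex_segment z₀ z)
      (left_mem_segment ℝ z₀ z) (right_mem_segment ℝ z₀ z)
    · simpa using this
    · refine (b1 x (hseg hx)).trans ?_
      refine mul_le_mul_of_nonneg_left ?_ (by positivity)
      exact norm_sub_le_of_mem_segment hx
  have h1 := (Complex.re_le_norm _).trans b2
  have e1 : ((Q z + m * (z - z₀) ^ 2 / 2) - Q z₀).re =
      (Q z).re + (m.re * ((z.re - z₀.re) ^ 2 - (z.im - z₀.im) ^ 2) -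
        2 * m.im * ((z.re - z₀.re) * (z.im - z₀.im))) / 2 - (Q z₀).re := by
    have e2 : (m * (z - z₀) ^ 2 / 2).re = (m.re * ((z.re - z₀.re) ^ 2 - (z.im - z₀.im) ^ 2) -
        2 * m.im * ((z.re - z₀.re) * (z.im - z₀.im))) / 2 := by
      rw [show (m * (z - z₀) ^ 2 / 2 : ℂ) = m * ((z - z₀) * (z - z₀)) / ((2 : ℝ) : ℂ) by
        push_cast; ring, Complex.div_ofReal_re]
      simp only [Complex.mul_re, Complex.mul_im, Complex.sub_re, Complex.sub_im]
      ring
    rw [Complex.sub_re, Complex.add_re, e2]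
  rw [e1] at h1
  have e3 : ‖z - z₀‖ * ‖z - z₀‖ = (z.re - z₀.re) ^ 2 + (z.im - z₀.im) ^ 2 := by
    rw [← sq, Complex.sq_norm, Complex.normSq_apply, Complex.sub_re, Complex.sub_im]
    ring
  rw [mul_assoc (m.re / 8), e3] at h1
  have n1 : m.re ^ 2 + m.im ^ 2 = ‖m‖ ^ 2 := by
    rw [Complex.sq_norm, Complex.normSq_apply]
    ring
  set a := z.re - z₀.re
  set b := z.im - z₀.im
  set α := m.re
  have h2 : m.im * (a * b) ≤ α / 8 * a ^ 2 + 2 * m.im ^ 2 / α * b ^ 2 := by
    have h3 : 0 ≤ (α * a - 4 * m.im * b) ^ 2 / (8 * α) := by positivity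
    have e4 : (α * a - 4 * m.im * b) ^ 2 / (8 * α) =
        α / 8 * a ^ 2 + 2 * m.im ^ 2 / α * b ^ 2 - m.im * (a * b) := by
      field_simp
      ring
    linarith
  have h4 : (α / 8 + α / 2 + 2 * m.im ^ 2 / α) * b ^ 2 ≤ 3 * ‖m‖ ^ 2 / α * b ^ 2 := by
    refine mul_le_mul_of_nonneg_right ?_ (sq_nonneg b)
    rw [← n1]
    have e5 : 3 * (α ^ 2 + m.im ^ 2) / α = 3 * α + 3 * m.im ^ 2 / α := by
      field_simp
    rw [e5]
    have h5 : 2 * m.im ^ 2 / α ≤ 3 * m.im ^ 2 / α := by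
      gcongr
      norm_num
    linarith
  nlinarith

/-- the integral over the real segment -/
theorem seqlap {q : ℕ → ℂ → ℂ} {Q Q1 Q2 : ℂ → ℂ} {r1 δ r : ℝ} {m z₀ : ℂ} (hr1 : r1 ≤ 1 / 16)
    (hq : ∀ᶠ N : ℕ in atTop, DifferentiableOn ℂ (q N) (Rc r1 r1))
    (hu : TendstoUniformlyOn q Q atTop (Rc r1 r1))
    (d1 : ∀ z ∈ Rc r1 r1, HasDerivAt Q (Q1 z) z)
    (d2 : ∀ z ∈ Rc r1 r1, HasDerivAt Q1 (Q2 z) z) (hm : 0 < m.re)
    (hb : ∀ z ∈ Rc r1 r1, ‖Q2 z + m‖ ≤ m.re / 8) (hδ0 : 0 < δ) (hδ : δ < r1)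
    (hr : ‖z₀‖ ≤ r) (hrδ : r ≤ δ / 2) (hK : 3 * ‖m‖ ^ 2 / m.re * r ^ 2 ≤ m.re * δ ^ 2 / 32)
    (hcr : Q1 z₀ = 0) (hpos : 0 < (Q z₀).re) :
    Tendsto (fun N : ℕ => Real.log ‖∫ t in (-δ)..δ, 1 / (2 * π) * Complex.exp (N * q N t)‖ / N)
      atTop (𝓝 (Q z₀).re) := by
  have hopen : IsOpen (Rc r1 r1) :=
    (isOpen_lt (Complex.continuous_re.abs) continuous_const).inter
      (isOpen_lt (Complex.continuous_im.abs) continuous_const)
  have hconv : Convex ℝ (Rc r1 r1) := by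
    have h1 : Rc r1 r1 = (Complex.reCLM ⁻¹' Set.Ioo (-r1) r1) ∩ (Complex.imCLM ⁻¹' Set.Ioo (-r1) r1) := by
      ext u
      constructor
      · rintro ⟨h1, h2⟩
        exact ⟨abs_lt.1 h1, abs_lt.1 h2⟩
      · rintro ⟨h1, h2⟩
        exact ⟨abs_lt.2 h1, abs_lt.2 h2⟩
    rw [h1]
    exact ((convex_Ioo (-r1) r1).is_linear_preimage Complex.reCLM.isLinear).inter
      ((convex_Ioo (-r1) r1).is_linear_preimage Complex.imCLM.isLinear)
  have hpi := Real.pi_gt_three
  have zr := (Complex.abs_re_le_norm z₀).trans hr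
  have zi := (Complex.abs_im_le_norm z₀).trans hr
  have zr' := abs_le.1 zr
  have hr0 : 0 ≤ r := (norm_nonneg _).trans hr
  have mem : ∀ x y : ℝ, |x| ≤ δ → |y| ≤ r → (x : ℂ) + y * Complex.I ∈ Rc r1 r1 := by
    intro x y hx hy
    refine ⟨?_, ?_⟩
    · have e : ((x : ℂ) + y * Complex.I).re = x := by simp
      rw [e]
      linarith
    · have e : ((x : ℂ) + y * Complex.I).im = y := by simp
      rw [e]
      linarith
  have hz₀ : z₀ ∈ Rc r1 r1 := ⟨by linarith, by linarith⟩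
  have key := fun z (hz : z ∈ Rc r1 r1) => conc hconv d1 d2 hm hb hz₀ hcr hz
  have hre' : ∀ x y : ℝ, ((x : ℂ) + y * Complex.I).re = x := by
    intro x y
    simp
  have him' : ∀ x y : ℝ, ((x : ℂ) + y * Complex.I).im = y := by
    intro x y
    simp
  have hderiv : ∀ z ∈ Rc r1 r1, deriv Q z = Q1 z := fun z hz => (d1 z hz).deriv
  have hW : Tendsto (fun N : ℕ => Real.log ‖∫ x in (-δ)..δ, (1 / (2 * π) : ℂ) *
      Complex.exp (N * q N (x + z₀.im * Complex.I))‖ / N) atTop (𝓝 (Q z₀).re) := by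
    refine Pool.Agent.W588.HT.lapc q (fun _ _ => 1 / (2 * π)) Q (fun _ => 1 / (2 * π)) (Rc r1 r1)
      (-δ) δ z₀ hopen hq (fun z hz => (d1 z hz).differentiableAt.differentiableWithinAt) hu
      (Eventually.of_forall fun N => differentiableOn_const _) (differentiableOn_const _) ?_
      (by linarith [zr'.1]) (by linarith [zr'.2]) ?_ ((hderiv z₀ hz₀).trans hcr) ?_ ?_ ?_
    · rw [Metric.tendstoUniformlyOn_iff]
      intro ε hε
      refine Eventually.of_forall fun N z _ => ?_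
      rw [dist_self]
      exact hε
    · intro x h1 h2
      exact mem x _ (abs_le.2 ⟨h1, h2⟩) zi
    · have h1 : deriv Q =ᶠ[𝓝 z₀] Q1 := by
        filter_upwards [hopen.mem_nhds hz₀] with z hz
        exact hderiv z hz
      rw [h1.deriv_eq, (d2 z₀ hz₀).deriv]
      have h2 := (Complex.re_le_norm _).trans (hb z₀ hz₀)
      rw [Complex.add_re] at h2
      linarith
    · have : (π : ℂ) ≠ 0 := by exact_mod_cast Real.pi_ne_zero
      exact one_div_ne_zero (mul_ne_zero two_ne_zero this)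
    · intro x h1 h2 h3
      have h4 := key _ (mem x z₀.im (abs_le.2 ⟨h1, h2⟩) zi)
      rw [hre', him', sub_self] at h4
      have h5 : 0 < (x - z₀.re) ^ 2 := by
        have : x - z₀.re ≠ 0 := sub_ne_zero.2 h3
        positivity
      have h6 : 0 < m.re / 4 * (x - z₀.re) ^ 2 := by positivity
      linarith
  set κ : ℝ := m.re * δ ^ 2 / 64 with hκ
  have hκ0 : 0 < κ := by positivity
  -- the sides
  have hside : ∀ σ y : ℝ, |σ| = δ → |y| ≤ r → |y - z₀.im| ≤ r →
      (Q (σ + y * Complex.I)).re ≤ (Q z₀).re - 2 * κ := by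
    intro σ y h1 h2 h3
    have h4 := key _ (mem σ y h1.le h2)
    rw [hre', him'] at h4
    have h5 : (δ / 2) ^ 2 ≤ (σ - z₀.re) ^ 2 := by
      rw [sq_le_sq, abs_of_pos (by positivity)]
      have := abs_sub_abs_le_abs_sub σ z₀.re
      linarith
    have h6 : (y - z₀.im) ^ 2 ≤ r ^ 2 := by
      rw [sq_le_sq, abs_of_nonneg hr0]
      exact h3
    have h7 : 0 < 3 * ‖m‖ ^ 2 / m.re := by
      have : m ≠ 0 := by
        intro h0
        rw [h0, Complex.zero_re] at hm
        exact lt_irrefl _ hm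
      positivity
    have h8 := mul_le_mul_of_nonneg_left h6 h7.le
    have h9 := mul_le_mul_of_nonneg_left h5 (by positivity : 0 ≤ m.re / 4)
    have e : 2 * κ = m.re / 4 * (δ / 2) ^ 2 - m.re * δ ^ 2 / 32 := by
      rw [hκ]
      ring
    linarith
  set T : ℕ → ℂ := fun N => Complex.I • (∫ y in (0:ℝ)..z₀.im, (1 / (2 * π) : ℂ) *
      Complex.exp (N * q N (((-δ : ℝ) : ℂ) + y * Complex.I))) -
    Complex.I • ∫ y in (0:ℝ)..z₀.im, (1 / (2 * π) : ℂ) *
      Complex.exp (N * q N ((δ : ℂ) + y * Complex.I)) with hT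
  have hTb : ∀ᶠ N : ℕ in atTop, ‖T N‖ ≤ N * Real.exp (N * ((Q z₀).re - κ)) := by
    filter_upwards [(Metric.tendstoUniformlyOn_iff.1 hu) κ hκ0, eventually_gt_atTop 0] with N h1 h2
    have hN1 : (1:ℝ) ≤ N := by exact_mod_cast h2
    have hN : (0:ℝ) < N := by linarith
    have hs : ∀ σ : ℝ, |σ| = δ → ‖∫ y in (0:ℝ)..z₀.im, (1 / (2 * π) : ℂ) *
        Complex.exp (N * q N ((σ : ℂ) + y * Complex.I))‖ ≤
          Real.exp (N * ((Q z₀).re - κ)) * |z₀.im - 0| := by
      intro σ hσ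
      refine intervalIntegral.norm_integral_le_of_norm_le_const fun y hy => ?_
      have hy1 : |y| ≤ r ∧ |y - z₀.im| ≤ r := by
        rw [Set.uIoc, Set.mem_Ioc] at hy
        obtain ⟨g1, g2⟩ := hy
        have hzi := abs_le.1 zi
        rcases le_total 0 z₀.im with h0 | h0
        · rw [min_eq_left h0] at g1
          rw [max_eq_right h0] at g2
          exact ⟨abs_le.2 ⟨by linarith, by linarith⟩, abs_le.2 ⟨by linarith, by linarith⟩⟩
        · rw [min_eq_right h0] at g1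
          rw [max_eq_left h0] at g2
          exact ⟨abs_le.2 ⟨by linarith, by linarith⟩, abs_le.2 ⟨by linarith, by linarith⟩⟩
      have h3 := h1 _ (mem σ y hσ.le hy1.1)
      rw [dist_eq_norm] at h3
      have h4 := (Complex.abs_re_le_norm _).trans_lt h3
      rw [Complex.sub_re] at h4
      have h5 := (abs_lt.1 h4).1
      have h6 := hside σ y hσ hy1.1 hy1.2
      rw [norm_mul, norm_div, norm_one, two_pi_norm, Complex.norm_exp]
      have h7 : (N * q N ((σ : ℂ) + y * Complex.I)).re ≤ N * ((Q z₀).re - κ) := by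
        have e : (N * q N ((σ : ℂ) + y * Complex.I)).re = N * (q N ((σ : ℂ) + y * Complex.I)).re := by
          rw [Complex.mul_re, Complex.natCast_re, Complex.natCast_im]
          ring
        rw [e]
        refine mul_le_mul_of_nonneg_left ?_ hN.le
        linarith
      have h8 := Real.exp_le_exp.2 h7
      have h9 : 1 / (2 * π) ≤ 1 := by
        rw [div_le_one (by linarith)]
        linarith
      have h10 : 0 < 1 / (2 * π) := by positivity
      have h11 := Real.exp_pos (N * q N ((σ : ℂ) + y * Complex.I)).re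
      nlinarith
    have e1 := hs (-δ) (by rw [abs_neg, abs_of_pos hδ0])
    have e2 := hs δ (abs_of_pos hδ0)
    rw [hT]
    simp only
    refine (norm_sub_le _ _).trans ?_
    rw [norm_smul, norm_smul, Complex.norm_I, one_mul, one_mul]
    rw [sub_zero] at e1 e2
    have h3 := Real.exp_pos (N * ((Q z₀).re - κ))
    have h4 : 2 * |z₀.im| ≤ 1 := by linarith
    nlinarith
  have hfin := Pool.Agent.W469.HT.Mwk.absorb hpos hκ0 hW hTb
  refine hfin.congr' ?_
  filter_upwards [hq] with N hqN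
  congr 3
  -- Cauchy's theorem
  have hrect := Complex.integral_boundary_rect_eq_zero_of_differentiableOn
    (fun t => (1 / (2 * π) : ℂ) * Complex.exp (N * q N t)) ((-δ : ℝ) : ℂ)
    ((δ : ℂ) + z₀.im * Complex.I) (by
      intro t ht
      rw [Complex.mem_reProdIm] at ht
      obtain ⟨h1, h2⟩ := ht
      have e1 : ((δ : ℂ) + z₀.im * Complex.I).re = δ := by simp
      have e2 : ((δ : ℂ) + z₀.im * Complex.I).im = z₀.im := by simp
      rw [e1, Complex.ofReal_re, Set.uIcc_of_le (by linarith)] at h1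
      rw [e2, Complex.ofReal_im] at h2
      have h3 : |t.im| ≤ r := by
        rw [Set.mem_uIcc] at h2
        have hzi := abs_le.1 zi
        rcases h2 with h2 | h2
        · exact abs_le.2 ⟨by linarith [h2.1], by linarith [h2.2]⟩
        · exact abs_le.2 ⟨by linarith [h2.1], by linarith [h2.2]⟩
      have h4 := mem t.re t.im (abs_le.2 h1) h3
      rw [Complex.re_add_im] at h4
      have h5 : DifferentiableAt ℂ (q N) t := (hqN t h4).differentiableAt (hopen.mem_nhds h4)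
      exact (((h5.const_mul _).cexp).const_mul _).differentiableWithinAt)
  have e1 : ((δ : ℂ) + z₀.im * Complex.I).re = δ := by simp
  have e2 : ((δ : ℂ) + z₀.im * Complex.I).im = z₀.im := by simp
  rw [e1, e2, Complex.ofReal_re, Complex.ofReal_im] at hrect
  simp only [Complex.ofReal_zero, zero_mul, add_zero] at hrect
  rw [hT]
  simp only
  linear_combination -hrect

end Pool.Agent.Y319.CG
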