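import Pool.Agent.Y319.CG.LozB

/-!
# CB3-G-LOZ: the exponent and its critical point
-/

set_option autoImplicit false

namespace Pool.Agent.Y319.CG

open Finset Filter Topology Metric MeasureTheory
open Pool.Agent.W711.HT Pool.Agent.Y472
open Pool.Agent.W366.HT (cos_re' norm_cos_le norm_sin_le cosh_le_two)
open scoped Real

lemma Gd_near {χ₀ χ : ℂ} (hZ : Zr χ₀) (hχ : χ ∈ Rz χ₀ (1 / 8)) : Gd χ := by
  obtain ⟨z1, z2, z3, z4⟩ := hZ
  obtain ⟨b1, b2⟩ := hχ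
  rw [Complex.sub_re] at b1
  rw [Complex.sub_im] at b2
  have b1' := abs_lt.1 b1
  have b2' := abs_lt.1 b2
  have hpi := Real.pi_gt_three
  have hpi' := Real.pi_lt_d2
  refine ⟨?_, abs_le.2 ⟨by linarith [b2'.1], by linarith [b2'.2]⟩⟩
  have e : (2 * Complex.cos (χ / 2)).re = 2 * (Real.cos (χ / 2).re * Real.cosh (χ / 2).im) := by
    rw [← cos_re']
    simp
  rw [e]
  have e2 : (χ / 2).re = χ.re / 2 := by simp
  have h3 := Real.one_sub_sq_div_two_le_cos (x := (χ / 2).re)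
  have h4 : (χ / 2).re ^ 2 ≤ 73 / 100 := by
    rw [e2]
    have h5 : χ.re / 2 ≤ 1 / 16 := by linarith [b1'.2]
    have h6 : -(π / 4 + 1 / 16) ≤ χ.re / 2 := by linarith [b1'.1]
    nlinarith
  have h5 := Real.one_le_cosh (χ / 2).im
  have h6 : 11 / 20 ≤ Real.cos (χ / 2).re := by linarith
  nlinarith

/-- the derivative of the exponent -/
noncomputable def Qa (χ ψ x t : ℂ) : ℂ :=
  (el χ (t + ψ / 2 + (π + x) / 2) - el χ (t + ψ / 2 - (π + x) / 2) +
    el χ (t - ψ / 2 + (π - x) / 2) - el χ (t - ψ / 2 - (π - x) / 2)) / (2 * π)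

/-- the second derivative of the exponent -/
noncomputable def Qb (χ ψ x t : ℂ) : ℂ :=
  (el1 χ (t + ψ / 2 + (π + x) / 2) - el1 χ (t + ψ / 2 - (π + x) / 2) +
    el1 χ (t - ψ / 2 + (π - x) / 2) - el1 χ (t - ψ / 2 - (π - x) / 2)) / (2 * π)

lemma memP {t ψ x : ℂ} (ht : t ∈ Bo) (hψ : ψ ∈ Bo) (hx : x ∈ Bo) :
    t + ψ / 2 + (π + x) / 2 ∈ DD ∧ t + ψ / 2 - (π + x) / 2 ∈ DD ∧
      t - ψ / 2 + (π - x) / 2 ∈ DD ∧ t - ψ / 2 - (π - x) / 2 ∈ DD := by
  obtain ⟨h1, h2, h3, h4⟩ := mem4 (c := π) (by rw [abs_of_pos Real.pi_pos]) ht hψ hx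
  exact ⟨DE_sub h1, DE_sub h2, DE_sub h3, DE_sub h4⟩

lemma shiftD {f : ℂ → ℂ} {f' t a b : ℂ} (h : HasDerivAt f f' (t + a + b)) :
    HasDerivAt (fun t => f (t + a + b)) f' t := by
  have h2 : HasDerivAt (fun t : ℂ => t + a + b) 1 t := ((hasDerivAt_id t).add_const a).add_const b
  have h3 := HasDerivAt.comp (h₂ := f) (h := fun t : ℂ => t + a + b) t h h2
  rw [mul_one] at h3
  exact h3

lemma four_deriv {f f' : ℂ → ℂ} {t ψ x : ℂ} (hf : ∀ u ∈ DD, HasDerivAt f (f' u) u) (ht : t ∈ Bo)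
    (hψ : ψ ∈ Bo) (hx : x ∈ Bo) :
    HasDerivAt (fun t => (f (t + ψ / 2 + (π + x) / 2) - f (t + ψ / 2 - (π + x) / 2) +
      f (t - ψ / 2 + (π - x) / 2) - f (t - ψ / 2 - (π - x) / 2)) / (2 * π))
      ((f' (t + ψ / 2 + (π + x) / 2) - f' (t + ψ / 2 - (π + x) / 2) +
        f' (t - ψ / 2 + (π - x) / 2) - f' (t - ψ / 2 - (π - x) / 2)) / (2 * π)) t := by
  obtain ⟨h1, h2, h3, h4⟩ := memP ht hψ hx
  have d1 := shiftD (hf _ h1)
  have d2 : HasDerivAt (fun t => f (t + ψ / 2 - (π + x) / 2)) (f' (t + ψ / 2 - (π + x) / 2)) t := by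
    have := shiftD (f := f) (t := t) (a := ψ / 2) (b := -((π + x) / 2))
      (by rw [← sub_eq_add_neg]; exact hf _ h2)
    simpa only [← sub_eq_add_neg] using this
  have d3 : HasDerivAt (fun t => f (t - ψ / 2 + (π - x) / 2)) (f' (t - ψ / 2 + (π - x) / 2)) t := by
    have := shiftD (f := f) (t := t) (a := -(ψ / 2)) (b := (π - x) / 2)
      (by rw [← sub_eq_add_neg]; exact hf _ h3)
    simpa only [← sub_eq_add_neg] using this
  have d4 : HasDerivAt (fun t => f (t - ψ / 2 - (π - x) / 2)) (f' (t - ψ / 2 - (π - x) / 2)) t := by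
    have := shiftD (f := f) (t := t) (a := -(ψ / 2)) (b := -((π - x) / 2))
      (by rw [← sub_eq_add_neg, ← sub_eq_add_neg]; exact hf _ h4)
    simpa only [← sub_eq_add_neg] using this
  exact (((d1.sub d2).add d3).sub d4).div_const _

lemma Fz_d1 {χ ψ x t : ℂ} (hχ : Gd χ) (ht : t ∈ Bo) (hψ : ψ ∈ Bo) (hx : x ∈ Bo) :
    HasDerivAt (Fz χ ψ x) (Qa χ ψ x t) t :=
  four_deriv (f := FF χ) (f' := el χ) (fun _ hu => FF_deriv hχ hu) ht hψ hx

lemma Fz_d2 {χ ψ x t : ℂ} (hχ : Gd χ) (ht : t ∈ Bo) (hψ : ψ ∈ Bo) (hx : x ∈ Bo) :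
    HasDerivAt (Qa χ ψ x) (Qb χ ψ x t) t :=
  four_deriv (f := el χ) (f' := el1 χ) (fun _ hu => el_deriv hχ hu) ht hψ hx

lemma cos_ne {χ : ℂ} (hχ : Gd χ) : Complex.cos (χ / 2) ≠ 0 := by
  intro h
  have := hχ.1
  rw [h, mul_zero, Complex.zero_re] at this
  norm_num at this

lemma el1_cont {χ₀ : ℂ} (hχ : Gd χ₀) {f : ℂ × ℂ × ℂ × ℂ → ℂ} (hf : Continuous f)
    (h0 : Complex.cos (f (χ₀, 0, 0, 0)) = 0) :
    ContinuousAt (fun p : ℂ × ℂ × ℂ × ℂ => el1 p.1 (f p)) (χ₀, 0, 0, 0) := by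
  unfold el1
  refine ContinuousAt.div (by fun_prop) (by fun_prop) ?_
  simp only
  rw [h0]
  simpa using cos_ne hχ

lemma Qb_val {χ₀ : ℂ} (hχ : Gd χ₀) : Qb χ₀ 0 0 0 = -(2 / (π * Complex.cos (χ₀ / 2))) := by
  have hc := cos_ne hχ
  have hpi : (π : ℂ) ≠ 0 := by exact_mod_cast Real.pi_ne_zero
  unfold Qb el1
  simp only [zero_div, add_zero, sub_zero, zero_add, zero_sub]
  rw [Complex.sin_neg, Complex.cos_neg, Complex.sin_pi_div_two, Complex.cos_pi_div_two]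
  generalize Complex.cos (χ₀ / 2) = w at hc
  rw [mul_zero, add_zero]
  field_simp
  ring

lemma Qb_near {χ₀ : ℂ} (hχ : Gd χ₀) {η : ℝ} (hη : 0 < η) : ∃ R : ℝ, 0 < R ∧ ∀ χ ψ x t : ℂ,
    ‖χ - χ₀‖ < R → ‖ψ‖ < R → ‖x‖ < R → ‖t‖ < R →
    ‖Qb χ ψ x t + 2 / (π * Complex.cos (χ₀ / 2))‖ ≤ η := by
  let p₀ : ℂ × ℂ × ℂ × ℂ := (χ₀, 0, 0, 0)
  have c1 : ContinuousAt (fun p : ℂ × ℂ × ℂ × ℂ => Qb p.1 p.2.1 p.2.2.1 p.2.2.2) p₀ := by
    unfold Qb
    refine ContinuousAt.div_const ?_ _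
    refine ((ContinuousAt.sub ?_ ?_).add ?_).sub ?_
    · refine el1_cont hχ (f := fun p => p.2.2.2 + p.2.1 / 2 + (π + p.2.2.1) / 2) (by fun_prop) ?_
      simp
    · refine el1_cont hχ (f := fun p => p.2.2.2 + p.2.1 / 2 - (π + p.2.2.1) / 2) (by fun_prop) ?_
      simp
    · refine el1_cont hχ (f := fun p => p.2.2.2 - p.2.1 / 2 + (π - p.2.2.1) / 2) (by fun_prop) ?_
      simp
    · refine el1_cont hχ (f := fun p => p.2.2.2 - p.2.1 / 2 - (π - p.2.2.1) / 2) (by fun_prop) ?_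
      simp
  obtain ⟨R, hR, h⟩ := Metric.continuousAt_iff.1 c1 η hη
  refine ⟨R, hR, fun χ ψ x t h1 h2 h3 h4 => ?_⟩
  have hd : dist (χ, ψ, x, t) p₀ < R := by
    rw [Prod.dist_eq, Prod.dist_eq, Prod.dist_eq, dist_eq_norm, dist_zero_right, dist_zero_right,
      dist_zero_right]
    exact max_lt h1 (max_lt h2 (max_lt h3 h4))
  have h5 := h hd
  rw [dist_eq_norm] at h5
  have e : (fun p : ℂ × ℂ × ℂ × ℂ => Qb p.1 p.2.1 p.2.2.1 p.2.2.2) p₀ = Qb χ₀ 0 0 0 := rfl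
  simp only at h5
  have e2 : Qb p₀.1 p₀.2.1 p₀.2.2.1 p₀.2.2.2 = Qb χ₀ 0 0 0 := rfl
  rw [e2, Qb_val hχ, sub_neg_eq_add] at h5
  exact h5.le

lemma m_pos {χ₀ : ℂ} (hχ : Gd χ₀) : 0 < (2 / (π * Complex.cos (χ₀ / 2)) : ℂ).re := by
  have h1 := hχ.1
  have h2 : 0 < (Complex.cos (χ₀ / 2)).re := by
    have e : (2 * Complex.cos (χ₀ / 2)).re = 2 * (Complex.cos (χ₀ / 2)).re := by simp
    rw [e] at h1
    linarith
  have e : (2 / (π * Complex.cos (χ₀ / 2)) : ℂ) = ((2 / π : ℝ) : ℂ) * (Complex.cos (χ₀ / 2))⁻¹ := by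
    push_cast
    have hpi : (π : ℂ) ≠ 0 := by exact_mod_cast Real.pi_ne_zero
    have hc := cos_ne hχ
    generalize Complex.cos (χ₀ / 2) = w at hc
    field_simp
  rw [e, Complex.re_ofReal_mul, Complex.inv_re]
  have h3 : 0 < Complex.normSq (Complex.cos (χ₀ / 2)) := Complex.normSq_pos.2 (cos_ne hχ)
  have := Real.pi_pos
  positivity

/-! ### The critical point -/

lemma asn_sqrt (z : ℂ) : ((1 - z ^ 2) ^ (1 / 2 : ℂ)) ^ 2 = 1 - z ^ 2 := by
  have := Complex.cpow_nat_inv_pow (1 - z ^ 2) (n := 2) (by norm_num)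
  rw [show ((2 : ℕ) : ℂ)⁻¹ = 1 / 2 by norm_num] at this
  exact this

lemma sin_asn (z : ℂ) : Complex.sin (asn z) = z := by
  have h1 := asn_sqrt z
  set s := (1 - z ^ 2) ^ (1 / 2 : ℂ) with hs
  have h2 : (Complex.I * z + s) * (s - Complex.I * z) = 1 := by
    linear_combination h1 - z ^ 2 * Complex.I_sq
  have h3 : Complex.I * z + s ≠ 0 := left_ne_zero_of_mul_eq_one h2
  have h4 : (Complex.I * z + s)⁻¹ = s - Complex.I * z := inv_eq_of_mul_eq_one_right h2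
  have h5 : Complex.exp (asn z * Complex.I) = Complex.I * z + s := by
    unfold asn
    rw [← hs]
    have e : -Complex.I * Complex.log (Complex.I * z + s) * Complex.I =
        Complex.log (Complex.I * z + s) := by
      linear_combination -(Complex.log (Complex.I * z + s)) * Complex.I_sq
    rw [e, Complex.exp_log h3]
  have h6 : Complex.exp (-asn z * Complex.I) = s - Complex.I * z := by
    rw [neg_mul, Complex.exp_neg, h5, h4]
  rw [Complex.sin, h5, h6]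
  linear_combination -z * Complex.I_sq

lemma asn_zero : asn 0 = 0 := by
  unfold asn
  simp

lemma asn_cont : ContinuousAt asn 0 := by
  unfold asn
  refine ContinuousAt.mul continuousAt_const (ContinuousAt.clog ?_ ?_)
  · refine ContinuousAt.add (by fun_prop) ?_
    refine ContinuousAt.cpow (by fun_prop) continuousAt_const ?_
    simp
  · simp

lemma tzz_near {χ₀ : ℂ} (hχ : Gd χ₀) {r : ℝ} (hr : 0 < r) : ∃ R : ℝ, 0 < R ∧ ∀ χ ψ x : ℂ,
    ‖χ - χ₀‖ < R → ‖ψ‖ < R → ‖x‖ < R → ‖tzz ψ x χ‖ ≤ r := by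
  let p₀ : ℂ × ℂ × ℂ := (χ₀, 0, 0)
  have v0 : -(Complex.sin (p₀.2.1 / 2) * Complex.sin (p₀.2.2 / 2) / Complex.cos (p₀.1 / 2)) = 0 := by
    change -(Complex.sin (0 / 2) * Complex.sin (0 / 2) / Complex.cos (χ₀ / 2)) = 0
    simp
  have c1 : ContinuousAt (fun p : ℂ × ℂ × ℂ =>
      -(Complex.sin (p.2.1 / 2) * Complex.sin (p.2.2 / 2) / Complex.cos (p.1 / 2))) p₀ := by
    refine ContinuousAt.neg (ContinuousAt.div (by fun_prop) (by fun_prop) ?_)
    exact cos_ne hχ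
  have c2 : ContinuousAt (fun p : ℂ × ℂ × ℂ => tzz p.2.1 p.2.2 p.1) p₀ := by
    unfold tzz
    refine ContinuousAt.comp (g := asn) ?_ c1
    rw [v0]
    exact asn_cont
  obtain ⟨R, hR, h⟩ := Metric.continuousAt_iff.1 c2 r hr
  refine ⟨R, hR, fun χ ψ x h1 h2 h3 => ?_⟩
  have hd : dist (χ, ψ, x) p₀ < R := by
    rw [Prod.dist_eq, Prod.dist_eq, dist_eq_norm, dist_zero_right, dist_zero_right]
    exact max_lt h1 (max_lt h2 h3)
  have h5 := h hd
  have e2 : tzz p₀.2.1 p₀.2.2 p₀.1 = 0 := by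
    unfold tzz
    rw [v0, asn_zero]
  simp only at h5
  rw [e2, dist_zero_right] at h5
  exact h5.le

lemma prodId (w t m : ℂ) : (w - Complex.sin (t + m)) * (w - Complex.sin (t - m)) =
    w ^ 2 - 2 * w * Complex.sin t * Complex.cos m + Complex.sin t ^ 2 - Complex.sin m ^ 2 := by
  rw [Complex.sin_add, Complex.sin_sub]
  linear_combination Complex.sin t ^ 2 * Complex.sin_sq_add_cos_sq m -
    Complex.sin m ^ 2 * Complex.sin_sq_add_cos_sq t

lemma prodEq {w t ψ x : ℂ}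
    (h : Complex.sin t * w = -(Complex.sin (ψ / 2) * Complex.sin (x / 2))) :
    (w - Complex.sin (t + (ψ / 2 + x / 2))) * (w - Complex.sin (t - (ψ / 2 + x / 2))) =
      (w + Complex.sin (t + (ψ / 2 - x / 2))) * (w + Complex.sin (t - (ψ / 2 - x / 2))) := by
  have h1 := prodId w t (ψ / 2 + x / 2)
  have h2 := prodId (-w) t (ψ / 2 - x / 2)
  have h3 : (w + Complex.sin (t + (ψ / 2 - x / 2))) * (w + Complex.sin (t - (ψ / 2 - x / 2))) =
      (-w - Complex.sin (t + (ψ / 2 - x / 2))) * (-w - Complex.sin (t - (ψ / 2 - x / 2))) := by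
    ring
  rw [h1, h3, h2, Complex.cos_add, Complex.cos_sub, Complex.sin_add, Complex.sin_sub]
  linear_combination (-4 * Complex.cos (ψ / 2) * Complex.cos (x / 2)) * h

lemma im_el {χ u : ℂ} (hχ : Gd χ) (hu : u ∈ DD) : |(el χ u).im| < π / 2 := by
  unfold el
  rw [Complex.log_im, Complex.abs_arg_lt_pi_div_two_iff]
  left
  have := arg_re hχ hu
  linarith

theorem crit {χ ψ x t : ℂ} (hχ : Gd χ) (ht : t ∈ Bo) (hψ : ψ ∈ Bo) (hx : x ∈ Bo)
    (h : Complex.sin t * Complex.cos (χ / 2) = -(Complex.sin (ψ / 2) * Complex.sin (x / 2))) :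
    Qa χ ψ x t = 0 := by
  obtain ⟨h1, h2, h3, h4⟩ := memP ht hψ hx
  have c1 : Complex.cos (t + ψ / 2 + (π + x) / 2) = -Complex.sin (t + (ψ / 2 + x / 2)) := by
    rw [← Complex.cos_add_pi_div_two]
    congr 1
    ring
  have c2 : Complex.cos (t + ψ / 2 - (π + x) / 2) = Complex.sin (t + (ψ / 2 - x / 2)) := by
    rw [← Complex.cos_sub_pi_div_two]
    congr 1
    ring
  have c3 : Complex.cos (t - ψ / 2 + (π - x) / 2) = -Complex.sin (t - (ψ / 2 + x / 2)) := by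
    rw [← Complex.cos_add_pi_div_two]
    congr 1
    ring
  have c4 : Complex.cos (t - ψ / 2 - (π - x) / 2) = Complex.sin (t - (ψ / 2 - x / 2)) := by
    rw [← Complex.cos_sub_pi_div_two]
    congr 1
    ring
  have e1 := el_exp hχ h1
  have e2 := el_exp hχ h2
  have e3 := el_exp hχ h3
  have e4 := el_exp hχ h4
  have n2 := arg_ne hχ h2
  have n4 := arg_ne hχ h4
  set S : ℂ := el χ (t + ψ / 2 + (π + x) / 2) - el χ (t + ψ / 2 - (π + x) / 2) +
    el χ (t - ψ / 2 + (π - x) / 2) - el χ (t - ψ / 2 - (π - x) / 2) with hS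
  have hexp : Complex.exp S = 1 := by
    rw [hS, Complex.exp_sub, Complex.exp_add, Complex.exp_sub, e1, e2, e3, e4]
    rw [div_mul_eq_mul_div, div_div, div_eq_one_iff_eq (mul_ne_zero n2 n4), c1, c2, c3, c4]
    have := prodEq h
    linear_combination 4 * this
  have i1 := abs_lt.1 (im_el hχ h1)
  have i2 := abs_lt.1 (im_el hχ h2)
  have i3 := abs_lt.1 (im_el hχ h3)
  have i4 := abs_lt.1 (im_el hχ h4)
  have him : S.im = (el χ (t + ψ / 2 + (π + x) / 2)).im - (el χ (t + ψ / 2 - (π + x) / 2)).im +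
    (el χ (t - ψ / 2 + (π - x) / 2)).im - (el χ (t - ψ / 2 - (π - x) / 2)).im := by
    rw [hS, Complex.sub_im, Complex.add_im, Complex.sub_im]
  have hpi := Real.pi_pos
  obtain ⟨n, hn⟩ := Complex.exp_eq_one_iff.1 hexp
  have hn' : S.im = n * (2 * π) := by
    rw [hn]
    simp
  have hn0 : n = 0 := by
    have a1 : (n : ℝ) * (2 * π) < 1 * (2 * π) := by
      rw [← hn', him]
      linarith [i1.2, i2.1, i3.2, i4.1]
    have a2 : -1 * (2 * π) < (n : ℝ) * (2 * π) := by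
      rw [← hn', him]
      linarith [i1.1, i2.2, i3.1, i4.2]
    have a3 : (n : ℝ) < 1 := lt_of_mul_lt_mul_right a1 (by positivity)
    have a4 : -1 < (n : ℝ) := lt_of_mul_lt_mul_right a2 (by positivity)
    have a5 : n < 1 := by exact_mod_cast a3
    have a6 : -1 < n := by exact_mod_cast a4
    omega
  have hS0 : S = 0 := by
    rw [hn, hn0]
    simp
  unfold Qa
  rw [← hS, hS0, zero_div]

lemma tzz_sin {ψ x χ : ℂ} (hχ : Gd χ) : Complex.sin (tzz ψ x χ) * Complex.cos (χ / 2) =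
    -(Complex.sin (ψ / 2) * Complex.sin (x / 2)) := by
  unfold tzz
  rw [sin_asn]
  have := cos_ne hχ
  field_simp

end Pool.Agent.Y319.CG
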