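import Pool.Agent.Y319.CG.LozC
import Pool.Agent.Y319.CG.LozD
import Pool.Agent.Y319.CG.LozE

/-!
# CB3-G-LOZ: local analytic interpolation of the kernel at the nodes
-/

set_option autoImplicit false

namespace Pool.Agent.Y319.CG

open Finset Filter Topology Metric MeasureTheory
open Pool.Agent.W711.HT Pool.Agent.Y472
open scoped Real

lemma s0_pos (hS0 : S_S0P) {χ₀ : ℂ} (hZ : Zr χ₀) (hG : Gd χ₀) : 0 < (s0 χ₀).re := by
  have hpi := Real.pi_pos
  obtain ⟨z1, z2, z3, z4⟩ := hZ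
  rw [hS0.2.2.2.1 χ₀ (abs_lt.2 ⟨by linarith, by linarith⟩)]
  have hl : 0 < Real.log (11 / 10) := Real.log_pos (by norm_num)
  have h1 : ∫ _ in (-(π / 2))..(π / 2), Real.log (11 / 10) ≤ ∫ θ in (-(π / 2))..(π / 2), Lm χ₀ θ := by
    refine intervalIntegral.integral_mono_on (by linarith) intervalIntegrable_const
      ((Lm_cont z3).intervalIntegrable _ _) fun θ hθ => ?_
    unfold Lm
    refine Real.log_le_log (by norm_num) ?_
    refine le_trans ?_ (Complex.re_le_norm _)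
    have e : (2 * Complex.cos (χ₀ / 2) + 2 * Complex.cos (θ : ℂ)).re =
        (2 * Complex.cos (χ₀ / 2)).re + 2 * Real.cos θ := by
      rw [Complex.add_re]
      simp [Complex.cos_ofReal_re]
    rw [e]
    have h2 := Real.cos_nonneg_of_neg_pi_div_two_le_of_le hθ.1 hθ.2
    linarith [hG.1]
  rw [intervalIntegral.integral_const, smul_eq_mul] at h1
  have h2 : 0 < (π / 2 - -(π / 2)) * Real.log (11 / 10) := mul_pos (by linarith) hl
  have h3 : 0 < 1 / π := by positivity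
  exact mul_pos h3 (h2.trans_le h1)

lemma norm_lt_two {z : ℂ} {t : ℝ} (h1 : |z.re| ≤ t) (h2 : |z.im| ≤ t) : ‖z‖ ≤ 2 * t := by
  have := Complex.norm_le_abs_re_add_abs_im z
  linarith

/-- asymptotics of the interpolating function -/
theorem asym (hS0 : S_S0P) {χ₀ : ℂ} (hZ : Zr χ₀) {ρ₀ c C : ℝ} (hSD : SDZ χ₀ ρ₀ c C szz dzz) :
    ∃ δ t : ℝ, 0 < δ ∧ δ < 1 / 16 ∧ 0 < t ∧ ∀ ε : ℝ, 0 < ε → ∀ᶠ N : ℕ in atTop,
      ∀ ψ ∈ Rc t t, ∀ x ∈ Rc t t, ∀ χ ∈ Rz χ₀ t,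
        AA δ N ψ x χ ≠ 0 ∧ |Real.log ‖AA δ N ψ x χ‖ - N * (szz ψ x χ).re| ≤ ε * N := by
  have hG0 : Gd χ₀ := by
    refine Gd_near hZ ?_
    constructor <;> simp
  have hs0 := s0_pos hS0 hZ hG0
  have hm := m_pos hG0
  set m : ℂ := 2 / (π * Complex.cos (χ₀ / 2)) with hmdef
  have hm0 : m ≠ 0 := by
    intro h0
    rw [h0, Complex.zero_re] at hm
    exact lt_irrefl _ hm
  obtain ⟨R, hR, hQb⟩ := Qb_near hG0 (η := m.re / 8) (by positivity)
  obtain ⟨r1, hr1⟩ : ∃ r1 : ℝ, r1 = min (R / 2) (1 / 16) := ⟨_, rfl⟩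
  have hr1R : r1 ≤ R / 2 := by rw [hr1]; exact min_le_left _ _
  have hr116 : r1 ≤ 1 / 16 := by rw [hr1]; exact min_le_right _ _
  have hr10 : 0 < r1 := by rw [hr1]; exact lt_min (by positivity) (by norm_num)
  obtain ⟨δ, hδ⟩ : ∃ δ : ℝ, δ = r1 / 2 := ⟨_, rfl⟩
  have hδ0 : 0 < δ := by rw [hδ]; positivity
  have hδ1 : δ < r1 := by rw [hδ]; linarith
  obtain ⟨K, hK⟩ : ∃ K : ℝ, K = 3 * ‖m‖ ^ 2 / m.re := ⟨_, rfl⟩
  have hK0 : 0 < K := by
    rw [hK]
    positivity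
  obtain ⟨r, hr⟩ : ∃ r : ℝ, r = min (δ / 2) (m.re * δ ^ 2 / (32 * K)) := ⟨_, rfl⟩
  have hrδ : r ≤ δ / 2 := by rw [hr]; exact min_le_left _ _
  have hrK : r ≤ m.re * δ ^ 2 / (32 * K) := by rw [hr]; exact min_le_right _ _
  have hr0 : 0 < r := by rw [hr]; exact lt_min (by positivity) (by positivity)
  have hKr : 3 * ‖m‖ ^ 2 / m.re * r ^ 2 ≤ m.re * δ ^ 2 / 32 := by
    rw [← hK]
    have h1 : r ^ 2 ≤ r := by nlinarith
    calc K * r ^ 2 ≤ K * (m.re * δ ^ 2 / (32 * K)) := by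
          exact mul_le_mul_of_nonneg_left (h1.trans hrK) hK0.le
      _ = m.re * δ ^ 2 / 32 := by
          field_simp
  obtain ⟨R2, hR2, htz⟩ := tzz_near hG0 hr0
  -- positivity of the limit
  have hρ₀ := hSD.hρ.1
  have hopenB : IsOpen (Rc ρ₀ ρ₀) :=
    (isOpen_lt (Complex.continuous_re.abs) continuous_const).inter
      (isOpen_lt (Complex.continuous_im.abs) continuous_const)
  have hopenZ : IsOpen (Rz χ₀ ρ₀) := hopenB.preimage (by fun_prop : Continuous fun χ : ℂ => χ - χ₀)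
  have hmemB : (0 : ℂ) ∈ Rc ρ₀ ρ₀ := by
    constructor <;> simpa using hρ₀
  have hmemZ : χ₀ ∈ Rz χ₀ ρ₀ := by
    constructor <;> simpa using hρ₀
  have hcont0 : ContinuousAt (fun p : ℂ × ℂ × ℂ => (szz p.1 p.2.1 p.2.2).re) (0, 0, χ₀) := by
    refine Complex.continuous_re.continuousAt.comp ?_
    refine hSD.san.continuousOn.continuousAt ((hopenB.prod (hopenB.prod hopenZ)).mem_nhds ?_)
    exact ⟨hmemB, hmemB, hmemZ⟩
  obtain ⟨R3, hR3, hlow0⟩ := Metric.continuousAt_iff.1 hcont0 ((s0 χ₀).re / 2) (by positivity)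
  obtain ⟨t, ht⟩ : ∃ t : ℝ, t = min (min (ρ₀ / 2) (1 / 32)) (min (R / 4) (min (R2 / 4) (R3 / 4))) :=
    ⟨_, rfl⟩
  have t1 : t ≤ ρ₀ / 2 := by rw [ht]; exact (min_le_left _ _).trans (min_le_left _ _)
  have t2 : t ≤ 1 / 32 := by rw [ht]; exact (min_le_left _ _).trans (min_le_right _ _)
  have t3 : t ≤ R / 4 := by rw [ht]; exact (min_le_right _ _).trans (min_le_left _ _)
  have t4 : t ≤ R2 / 4 := by
    rw [ht]; exact (min_le_right _ _).trans ((min_le_right _ _).trans (min_le_left _ _))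
  have t5 : t ≤ R3 / 4 := by
    rw [ht]; exact (min_le_right _ _).trans ((min_le_right _ _).trans (min_le_right _ _))
  have t0 : 0 < t := by
    rw [ht]
    exact lt_min (lt_min (by positivity) (by norm_num))
      (lt_min (by positivity) (lt_min (by positivity) (by positivity)))
  clear ht
  -- the compact set
  obtain ⟨K1, hK1def⟩ : ∃ K1 : Set ℂ, K1 = Set.Icc (-t) t ×ℂ Set.Icc (-t) t := ⟨_, rfl⟩
  have hK1mem : ∀ z : ℂ, z ∈ K1 ↔ |z.re| ≤ t ∧ |z.im| ≤ t := by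
    intro z
    rw [hK1def, Complex.mem_reProdIm, Set.mem_Icc, Set.mem_Icc, abs_le, abs_le]
  have hK1c : IsCompact K1 := by
    rw [hK1def]
    exact isCompact_Icc.reProdIm isCompact_Icc
  obtain ⟨K2, hK2def⟩ : ∃ K2 : Set ℂ, K2 = (fun z => z + χ₀) '' K1 := ⟨_, rfl⟩
  have hK2mem : ∀ z : ℂ, z ∈ K2 ↔ |(z - χ₀).re| ≤ t ∧ |(z - χ₀).im| ≤ t := by
    intro z
    rw [hK2def, ← hK1mem]
    constructor
    · rintro ⟨y, hy, rfl⟩
      simpa using hy
    · intro h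
      exact ⟨z - χ₀, h, by simp⟩
  have hK2c : IsCompact K2 := by
    rw [hK2def]
    exact hK1c.image (by fun_prop)
  obtain ⟨KK, hKdef⟩ : ∃ KK : Set (ℂ × ℂ × ℂ), KK = K1 ×ˢ K1 ×ˢ K2 := ⟨_, rfl⟩
  have hKmem : ∀ p : ℂ × ℂ × ℂ, p ∈ KK ↔
      (|p.1.re| ≤ t ∧ |p.1.im| ≤ t) ∧ (|p.2.1.re| ≤ t ∧ |p.2.1.im| ≤ t) ∧
        (|(p.2.2 - χ₀).re| ≤ t ∧ |(p.2.2 - χ₀).im| ≤ t) := by
    intro p
    rw [hKdef, Set.mem_prod, Set.mem_prod, hK1mem, hK1mem, hK2mem]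
  have hKc : IsCompact KK := by
    rw [hKdef]
    exact hK1c.prod (hK1c.prod hK2c)
  have hBo : ∀ z : ℂ, |z.re| ≤ t → |z.im| ≤ t → z ∈ Bo := by
    intro z h1 h2
    exact ⟨by linarith, by linarith⟩
  have hGd : ∀ z : ℂ, |(z - χ₀).re| ≤ t → |(z - χ₀).im| ≤ t → Gd z := by
    intro z h1 h2
    exact Gd_near hZ ⟨by linarith, by linarith⟩
  have hRcB : Rc r1 r1 ⊆ Bo := fun z hz => ⟨hz.1.trans_le hr116, hz.2.trans_le hr116⟩
  have hlow : ∀ p ∈ KK, (s0 χ₀).re / 2 ≤ (szz p.1 p.2.1 p.2.2).re := by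
    intro p hp
    obtain ⟨⟨h1, h2⟩, ⟨h3, h4⟩, h5, h6⟩ := (hKmem p).1 hp
    have d1 := norm_lt_two h1 h2
    have d2 := norm_lt_two h3 h4
    have d3 := norm_lt_two h5 h6
    have hd : dist p (0, 0, χ₀) < R3 := by
      rw [Prod.dist_eq, Prod.dist_eq, dist_zero_right, dist_zero_right, dist_eq_norm]
      exact max_lt (by linarith) (max_lt (by linarith) (by linarith))
    have h7 := hlow0 hd
    simp only at h7
    rw [hSD.zero χ₀ hmemZ, Real.dist_eq] at h7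
    have := (abs_lt.1 h7).1
    linarith
  have hΦ : ContinuousOn (fun p : ℂ × ℂ × ℂ => (szz p.1 p.2.1 p.2.2).re) KK := by
    refine Complex.continuous_re.comp_continuousOn (hSD.san.continuousOn.mono ?_)
    intro p hp
    obtain ⟨⟨h1, h2⟩, ⟨h3, h4⟩, h5, h6⟩ := (hKmem p).1 hp
    exact ⟨⟨by linarith, by linarith⟩, ⟨by linarith, by linarith⟩, by linarith, by linarith⟩
  have hmain := Pool.Agent.W583.HT.seq (ℂ × ℂ × ℂ) KK hKc
    (fun N p => Real.log ‖AA δ N p.1 p.2.1 p.2.2‖ / N) (fun p => (szz p.1 p.2.1 p.2.2).re) hΦ (by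
    intro p p₀ hp₀ hp htp
    have htp1 : Tendsto (fun N => (p N).1) atTop (𝓝 p₀.1) :=
      (continuous_fst.tendsto p₀).comp htp
    have htp2 : Tendsto (fun N => (p N).2.1) atTop (𝓝 p₀.2.1) :=
      ((continuous_fst.comp continuous_snd).tendsto p₀).comp htp
    have htp3 : Tendsto (fun N => (p N).2.2) atTop (𝓝 p₀.2.2) :=
      ((continuous_snd.comp continuous_snd).tendsto p₀).comp htp
    obtain ⟨⟨a1, a2⟩, ⟨a3, a4⟩, a5, a6⟩ := (hKmem p₀).1 hp₀
    have d1 := norm_lt_two a1 a2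
    have d2 := norm_lt_two a3 a4
    have d3 := norm_lt_two a5 a6
    have g0 := hGd _ a5 a6
    have b1 := hBo _ a1 a2
    have b2 := hBo _ a3 a4
    have hz : ‖tzz p₀.1 p₀.2.1 p₀.2.2‖ ≤ r :=
      htz _ _ _ (by linarith) (by linarith) (by linarith)
    have hzB : tzz p₀.1 p₀.2.1 p₀.2.2 ∈ Bo := by
      refine ⟨?_, ?_⟩
      · have := (Complex.abs_re_le_norm _).trans hz
        linarith
      · have := (Complex.abs_im_le_norm _).trans hz
        linarith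
    have hcr := crit g0 hzB b1 b2 (tzz_sin g0)
    have hpos : 0 < (Fz p₀.2.2 p₀.1 p₀.2.1 (tzz p₀.1 p₀.2.1 p₀.2.2)).re := by
      have := hlow p₀ hp₀
      unfold szz at this
      linarith
    refine seqlap (q := fun N => ph N (p N).2.2 (p N).1 (p N).2.1) (Q := Fz p₀.2.2 p₀.1 p₀.2.1)
      (Q1 := Qa p₀.2.2 p₀.1 p₀.2.1) (Q2 := Qb p₀.2.2 p₀.1 p₀.2.1) hr116 ?_ ?_ ?_ ?_ hm ?_ hδ0 hδ1
      hz hrδ hKr hcr hpos
    · filter_upwards [eventually_gt_atTop 0] with N hN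
      obtain ⟨⟨c1, c2⟩, ⟨c3, c4⟩, c5, c6⟩ := (hKmem (p N)).1 (hp N)
      exact (ph_diff_t (hGd _ c5 c6) hN (hBo _ c1 c2) (hBo _ c3 c4)).mono hRcB
    · rw [Metric.tendstoUniformlyOn_iff]
      intro ε hε
      have u1 := (Metric.tendsto_nhds.1 htp1) (ε / 100) (by positivity)
      have u2 := (Metric.tendsto_nhds.1 htp2) (ε / 100) (by positivity)
      have u3 := (Metric.tendsto_nhds.1 htp3) (ε / 100) (by positivity)
      have u4 : ∀ᶠ N : ℕ in atTop, 96 * 4 / ε ≤ (N : ℝ) :=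
        tendsto_natCast_atTop_atTop.eventually_ge_atTop _
      filter_upwards [u1, u2, u3, u4, eventually_gt_atTop 0] with N v1 v2 v3 v4 hN z hz
      obtain ⟨⟨c1, c2⟩, ⟨c3, c4⟩, c5, c6⟩ := (hKmem (p N)).1 (hp N)
      have hN' : (0:ℝ) < N := by exact_mod_cast hN
      have h1 := ph_close (hGd _ c5 c6) g0 hN (hBo _ c1 c2) (hBo _ c3 c4) b1 b2 (hRcB hz)
      rw [dist_eq_norm] at v1 v2 v3
      rw [dist_comm, dist_eq_norm]
      refine h1.trans_lt ?_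
      have h2 : 96 / (N : ℝ) ≤ ε / 4 := by
        rw [div_le_iff₀ hε] at v4
        rw [div_le_iff₀ hN']
        linarith
      linarith
    · intro z hz
      exact Fz_d1 g0 (hRcB hz) b1 b2
    · intro z hz
      exact Fz_d2 g0 (hRcB hz) b1 b2
    · intro z hz
      refine hQb _ _ _ _ (by linarith) (by linarith) (by linarith) ?_
      have h1 := Complex.norm_le_abs_re_add_abs_im z
      have h2 := hz.1
      have h3 := hz.2
      linarith)
  refine ⟨δ, t, hδ0, by linarith, t0, fun ε hε => ?_⟩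
  have hmin : 0 < min ε ((s0 χ₀).re / 4) := lt_min hε (by positivity)
  filter_upwards [hmain _ hmin, eventually_gt_atTop 0] with N h1 h2 ψ hψ x hx χ hχ
  have hN : (0 : ℝ) < N := by exact_mod_cast h2
  have hpK : (ψ, x, χ) ∈ KK := (hKmem _).2 ⟨⟨hψ.1.le, hψ.2.le⟩, ⟨hx.1.le, hx.2.le⟩,
    hχ.1.le, hχ.2.le⟩
  have h3 := h1 _ hpK
  have h4 := hlow _ hpK
  simp only at h3 h4
  constructor
  · intro hker
    rw [hker, norm_zero, Real.log_zero, zero_div, zero_sub, abs_neg] at h3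
    have h5 := (le_abs_self _).trans (h3.trans (min_le_right _ _))
    linarith
  · have h5 := h3.trans (min_le_left _ _)
    have e1 : Real.log ‖AA δ N ψ x χ‖ - N * (szz ψ x χ).re =
        N * (Real.log ‖AA δ N ψ x χ‖ / N - (szz ψ x χ).re) := by
      field_simp
    rw [e1, abs_mul, abs_of_pos hN, mul_comm]
    gcongr

lemma Cn_cont (N n : ℕ) (χ a : ℂ) : Continuous fun t : ℝ => Cn N n χ (t + a) := by
  unfold Cn
  fun_prop

lemma exp_big {a b : ℝ} (_ha : 0 < a) (hb : 0 < b) :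
    ∀ᶠ N : ℕ in atTop, a * N * Real.exp (-(N * b)) ≤ 1 := by
  have h1 : ∀ᶠ N : ℕ in atTop, 2 * a / b ^ 2 ≤ (N : ℝ) :=
    tendsto_natCast_atTop_atTop.eventually_ge_atTop _
  filter_upwards [h1] with N h1
  have hN : (0:ℝ) ≤ N := Nat.cast_nonneg N
  rw [div_le_iff₀ (by positivity)] at h1
  have h2 : a * N ≤ Real.exp (N * b) := by
    have h3 := Real.quadratic_le_exp_of_nonneg (x := N * b) (by positivity)
    have h4 : (N * b) ^ 2 / 2 ≥ a * N := by nlinarith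
    have h5 : 0 ≤ N * b := by positivity
    linarith
  rw [Real.exp_neg, ← div_eq_mul_inv, div_le_one (Real.exp_pos _)]
  exact h2

/-- the difference at the nodes -/
theorem nodes (hPF : S_PF) (hMPZ : S_MPZ) (hCNB : S_CNB) (hLMI : S_LMI) (hS0 : S_S0P) {χ₀ : ℂ}
    (hZ : Zr χ₀) {δ : ℝ} (hδ0 : 0 < δ) (hδ : δ < 1 / 16) :
    ∃ ρ₂ κ : ℝ, 0 < ρ₂ ∧ 0 < κ ∧ ∀ᶠ N : ℕ in atTop, ∀ p q : ℕ, p + q + 1 = N →
      |π * ((p : ℝ) - q) / N| < ρ₂ → ∀ ψ ∈ Rc ρ₂ ρ₂, ∀ χ ∈ Rz χ₀ ρ₂,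
        ‖kh N ψ (π * ((p : ℂ) - q) / N) χ - AA δ N ψ (π * ((p : ℂ) - q) / N) χ‖ ≤
          Real.exp (N * ((s0 χ₀).re - κ)) := by
  have hpi := Real.pi_gt_three
  obtain ⟨ρs, c₂, hρs, -, hc₂, hL⟩ := hLMI
  obtain ⟨κ₀, hκ₀⟩ : ∃ κ₀ : ℝ, κ₀ = c₂ * min δ ρs ^ 2 := ⟨_, rfl⟩
  have hκ₀p : 0 < κ₀ := by
    rw [hκ₀]
    have : 0 < min δ ρs := lt_min hδ0 hρs
    positivity
  obtain ⟨ε, hε⟩ : ∃ ε : ℝ, ε = min (κ₀ / 4) (1 / 32) := ⟨_, rfl⟩
  have hε1 : ε ≤ κ₀ / 4 := by rw [hε]; exact min_le_left _ _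
  have hε2 : ε ≤ 1 / 32 := by rw [hε]; exact min_le_right _ _
  have hε0 : 0 < ε := by rw [hε]; exact lt_min (by positivity) (by norm_num)
  obtain ⟨ρ₂, hρ₂, ht⟩ := tail hCNB hS0 hL hc₂ hZ hε0
  obtain ⟨κ, hκ⟩ : ∃ κ : ℝ, κ = min (κ₀ / 4) (1 / 64) := ⟨_, rfl⟩
  have hκ1 : κ ≤ κ₀ / 4 := by rw [hκ]; exact min_le_left _ _
  have hκ2 : κ ≤ 1 / 64 := by rw [hκ]; exact min_le_right _ _
  have hκp : 0 < κ := by rw [hκ]; exact lt_min (by positivity) (by norm_num)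
  have hbig : ∀ᶠ N : ℕ in atTop, Real.log 2 / κ ≤ (N : ℝ) :=
    tendsto_natCast_atTop_atTop.eventually_ge_atTop _
  refine ⟨min ρ₂ (1 / 16), κ, lt_min hρ₂ (by norm_num), hκp, ?_⟩
  filter_upwards [ht, hbig, exp_big (a := 96) (b := 1 / 16) (by norm_num) (by norm_num),
    exp_big (a := 48) (b := 1 / 8) (by norm_num) (by norm_num),
    eventually_ge_atTop 8] with N ht hbig hx1 hx2 hN8 p q hpq hx ψ hψ χ hχ
  have hN : (0:ℝ) < N := by
    have : 0 < N := by omega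
    exact_mod_cast this
  have hψ2 : ψ ∈ Rc ρ₂ ρ₂ := ⟨hψ.1.trans_le (min_le_left _ _), hψ.2.trans_le (min_le_left _ _)⟩
  have hψB : ψ ∈ Bo := ⟨hψ.1.trans_le (min_le_right _ _), hψ.2.trans_le (min_le_right _ _)⟩
  have hχ2 : χ ∈ Rz χ₀ ρ₂ := ⟨hχ.1.trans_le (min_le_left _ _), hχ.2.trans_le (min_le_left _ _)⟩
  have hG : Gd χ := Gd_near hZ ⟨(hχ.1.trans_le (min_le_right _ _)).trans (by norm_num),
    (hχ.2.trans_le (min_le_right _ _)).trans (by norm_num)⟩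
  have hxB : (π * ((p : ℂ) - q) / N) ∈ Bo := by
    have e : (π * ((p : ℂ) - q) / N) = ((π * ((p : ℝ) - q) / N : ℝ) : ℂ) := by
      push_cast
      ring
    rw [e]
    refine ⟨?_, ?_⟩
    · rw [Complex.ofReal_re]
      exact hx.trans_le (min_le_right _ _)
    · rw [Complex.ofReal_im, abs_zero]
      norm_num
  set S : ℝ := (s0 χ₀).re with hS
  set x : ℂ := π * ((p : ℂ) - q) / N with hxdef
  set G : ℝ → ℂ := fun t => Cn N p χ (t + ψ / 2) * Cn N q χ (t - ψ / 2) with hGdef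
  set H : ℝ → ℂ := fun t => Complex.exp (N * ph N χ ψ x t) with hHdef
  have hψpi : |ψ.re| ≤ π := by
    have := hψB.1
    linarith
  have hGt : ∀ t : ℝ, |t| ≤ π → ‖G t‖ ≤ Real.exp (N * (S - c₂ * min |t| ρs ^ 2 + ε)) := fun t h =>
    ht p q hpq ψ χ t hψpi hψ2.2.le hχ2 h
  have hGc : Continuous G := by
    rw [hGdef]
    refine (Cn_cont N p χ (ψ / 2)).mul ?_
    have := Cn_cont N q χ (-(ψ / 2))
    simpa only [← sub_eq_add_neg] using this
  have hGi : ∀ a b : ℝ, IntervalIntegrable G volume a b := fun a b => hGc.intervalIntegrable a b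
  have hHi : IntervalIntegrable H volume (-δ) δ := by
    apply ContinuousOn.intervalIntegrable
    rw [Set.uIcc_of_le (by linarith)]
    refine Complex.continuous_exp.comp_continuousOn (continuousOn_const.mul ?_)
    refine (ph_diff_t hG (by omega) hψB hxB).continuousOn.comp (f := fun t : ℝ => (t : ℂ))
      (by fun_prop) ?_
    intro t ht
    exact real_Bo hδ (abs_le.2 ht)
  have e1 : kh N ψ x χ - AA δ N ψ x χ = 1 / (2 * π) * ((∫ t in (-π)..(-δ), G t) +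
      (∫ t in (-δ)..δ, (G t - H t)) + ∫ t in δ..π, G t) := by
    rw [hxdef, hPF N p q ψ χ hpq, ← hxdef]
    have e2 : AA δ N ψ x χ = 1 / (2 * π) * ∫ t in (-δ)..δ, H t := by
      unfold AA
      rw [intervalIntegral.integral_const_mul]
    have e3 : ∫ t in (-π)..π, G t = (∫ t in (-π)..(-δ), G t) + (∫ t in (-δ)..δ, G t) +
        ∫ t in δ..π, G t := by
      rw [intervalIntegral.integral_add_adjacent_intervals (hGi _ _) (hGi _ _),
        intervalIntegral.integral_add_adjacent_intervals (hGi _ _) (hGi _ _)]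
    rw [e2, intervalIntegral.integral_sub (hGi _ _) hHi]
    have e4 : (∫ t in (-π)..π, Cn N p χ (t + ψ / 2) * Cn N q χ (t - ψ / 2)) =
        ∫ t in (-π)..π, G t := rfl
    rw [e4, e3]
    ring
  set M : ℝ := Real.exp (N * (S - 2 * κ)) with hM
  have hMp : 0 < M := Real.exp_pos _
  -- far from the origin
  have hfar : ∀ t : ℝ, δ ≤ |t| → |t| ≤ π → ‖G t‖ ≤ M := by
    intro t h1 h2
    refine (hGt t h2).trans (Real.exp_le_exp.2 (mul_le_mul_of_nonneg_left ?_ hN.le))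
    have h3 : κ₀ ≤ c₂ * min |t| ρs ^ 2 := by
      rw [hκ₀]
      refine mul_le_mul_of_nonneg_left ?_ hc₂.le
      have h4 : min δ ρs ≤ min |t| ρs := min_le_min_right ρs h1
      have h5 : 0 < min δ ρs := lt_min hδ0 hρs
      exact pow_le_pow_left₀ h5.le h4 2
    linarith
  -- near the origin
  have hnear : ∀ t : ℝ, |t| ≤ δ → ‖G t - H t‖ ≤ M := by
    intro t h1
    obtain ⟨E, hE, hGE⟩ := CC_exp hMPZ hG hN8 hpq hψB (real_Bo hδ h1) hxB
    have hE1 : ‖E‖ ≤ 1 := hE.trans hx2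
    have h2 : G t - H t = -(G t * (Complex.exp (-E) - 1)) := by
      have e5 : H t = G t * Complex.exp (-E) := by
        rw [hGdef, hHdef]
        simp only
        rw [hGE, ← Complex.exp_add]
        congr 1
        ring
      rw [e5]
      ring
    rw [h2, norm_neg, norm_mul]
    have h3 : ‖Complex.exp (-E) - 1‖ ≤ 2 * ‖E‖ := by
      have := Complex.norm_exp_sub_one_le (x := -E) (by rw [norm_neg]; exact hE1)
      rwa [norm_neg] at this
    have h4 : ‖G t‖ ≤ Real.exp (N * (S + ε)) := by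
      refine (hGt t (h1.trans (by linarith))).trans
        (Real.exp_le_exp.2 (mul_le_mul_of_nonneg_left ?_ hN.le))
      have : 0 ≤ c₂ * min |t| ρs ^ 2 := by positivity
      linarith
    have h5 : ‖G t‖ * ‖Complex.exp (-E) - 1‖ ≤
        Real.exp (N * (S + ε)) * (2 * (48 * N * Real.exp (-(N * (1 / 8))))) :=
      mul_le_mul h4 (h3.trans (by linarith)) (norm_nonneg _) (Real.exp_pos _).le
    refine h5.trans ?_
    have e6 : Real.exp (-(N * (1 / 8))) = Real.exp (-(N * (1 / 16))) * Real.exp (-(N * (1 / 16))) := by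
      rw [← Real.exp_add]
      congr 1
      ring
    have h6 : Real.exp (N * (S + ε)) * Real.exp (-(N * (1 / 16))) ≤ M := by
      rw [← Real.exp_add, hM, Real.exp_le_exp]
      have : N * (S + ε) + -(N * (1 / 16)) = N * (S + ε - 1 / 16) := by ring
      rw [this]
      refine mul_le_mul_of_nonneg_left ?_ hN.le
      linarith
    calc Real.exp (N * (S + ε)) * (2 * (48 * N * Real.exp (-(N * (1 / 8))))) =
        (Real.exp (N * (S + ε)) * Real.exp (-(N * (1 / 16)))) *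
          (96 * N * Real.exp (-(N * (1 / 16)))) := by
          rw [e6]
          ring
      _ ≤ M * 1 := mul_le_mul h6 hx1 (by positivity) hMp.le
      _ = M := mul_one M
  have i1 : ‖∫ t in (-π)..(-δ), G t‖ ≤ M * |-δ - -π| := by
    refine intervalIntegral.norm_integral_le_of_norm_le_const fun t ht => ?_
    rw [Set.uIoc_of_le (by linarith)] at ht
    have h1 : |t| = -t := abs_of_nonpos (by linarith [ht.2])
    exact hfar t (by rw [h1]; linarith [ht.2]) (by rw [h1]; linarith [ht.1])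
  have i2 : ‖∫ t in (-δ)..δ, (G t - H t)‖ ≤ M * |δ - -δ| := by
    refine intervalIntegral.norm_integral_le_of_norm_le_const fun t ht => ?_
    rw [Set.uIoc_of_le (by linarith)] at ht
    exact hnear t (abs_le.2 ⟨ht.1.le, ht.2⟩)
  have i3 : ‖∫ t in δ..π, G t‖ ≤ M * |π - δ| := by
    refine intervalIntegral.norm_integral_le_of_norm_le_const fun t ht => ?_
    rw [Set.uIoc_of_le (by linarith)] at ht
    have h1 : |t| = t := abs_of_nonneg (by linarith [ht.1])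
    exact hfar t (by rw [h1]; exact ht.1.le) (by rw [h1]; exact ht.2)
  rw [abs_of_nonneg (by linarith)] at i1 i2 i3
  rw [e1, norm_mul, norm_div, norm_one, two_pi_norm]
  have h1 : ‖(∫ t in (-π)..(-δ), G t) + (∫ t in (-δ)..δ, (G t - H t)) + ∫ t in δ..π, G t‖ ≤
      M * (2 * π) := by
    refine (norm_add_le _ _).trans ?_
    have h2 := norm_add_le (∫ t in (-π)..(-δ), G t) (∫ t in (-δ)..δ, (G t - H t))
    have h3 : M * (-δ - -π) + M * (δ - -δ) + M * (π - δ) = M * (2 * π) := by ring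
    linarith
  have h2p : 0 < 1 / (2 * π) := by positivity
  refine (mul_le_mul_of_nonneg_left h1 h2p.le).trans ?_
  have e7 : 1 / (2 * π) * (M * (2 * π)) = M := by
    have : π ≠ 0 := Real.pi_ne_zero
    field_simp
  rw [e7, hM, Real.exp_le_exp]
  refine mul_le_mul_of_nonneg_left ?_ hN.le
  linarith

/-- **LOZ**: local analytic interpolation of the kernel at the nodes -/
theorem loz : Pool.Agent.Y472.S_LOZ := by
  intro hPF hMPZ hCNB hLMI hS0 hSDZ χ₀ hZ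
  obtain ⟨ρ₀, c, C, hSD⟩ := hSDZ χ₀ hZ
  obtain ⟨δ, t, hδ0, hδ, ht, hasym⟩ := asym hS0 hZ hSD
  obtain ⟨ρ₂, κ, hρ₂, hκ, hnodes⟩ := nodes hPF hMPZ hCNB hLMI hS0 hZ hδ0 hδ
  obtain ⟨ρ₁, hρ₁⟩ : ∃ ρ₁ : ℝ, ρ₁ = min (min t ρ₂) (1 / 16) := ⟨_, rfl⟩
  have k1 : ρ₁ ≤ t := by rw [hρ₁]; exact (min_le_left _ _).trans (min_le_left _ _)
  have k2 : ρ₁ ≤ ρ₂ := by rw [hρ₁]; exact (min_le_left _ _).trans (min_le_right _ _)
  have k3 : ρ₁ ≤ 1 / 16 := by rw [hρ₁]; exact min_le_right _ _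
  have k0 : 0 < ρ₁ := by rw [hρ₁]; exact lt_min (lt_min ht hρ₂) (by norm_num)
  have hsub : ∀ {a b : ℝ}, a ≤ b → Rc a a ⊆ Rc b b := fun h z hz =>
    ⟨hz.1.trans_le h, hz.2.trans_le h⟩
  have hsubz : ∀ {a b : ℝ}, a ≤ b → Rz χ₀ a ⊆ Rz χ₀ b := fun h z hz => hsub h hz
  refine ⟨ρ₁, κ, k0, by linarith, hκ, fun N ψ x χ => AA δ N ψ x χ, ?_, ?_, ?_⟩
  · filter_upwards [eventually_gt_atTop 0] with N hN ψ hψ χ hχ
    exact (AA_diff hδ0 hδ (Gd_near hZ (hsubz (k3.trans (by norm_num)) hχ)) hN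
      (hsub k3 hψ)).mono (hsub k3)
  · intro ε hε
    filter_upwards [hasym ε hε] with N h ψ hψ x hx χ hχ
    exact h ψ (hsub k1 hψ) x (hsub k1 hx) χ (hsubz k1 hχ)
  · filter_upwards [hnodes] with N h p q hpq hx ψ hψ χ hχ
    exact h p q hpq (hx.trans_le k2) ψ (hsub k2 hψ) χ (hsubz k2 hχ)

end Pool.Agent.Y319.CG
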