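import Pool.Agent.Y472.G.Defs
import Pool.Agent.MP27fa52.Param
import Pool.Agent.TH41.BL.LMA
import Pool.Agent.W366.HT.Int1

/-!
# CB3-G-LOZ: the logarithm of the factors and its primitive
-/

set_option autoImplicit false

namespace Pool.Agent.Y319.CG

open Finset Filter Topology Metric MeasureTheory
open Pool.Agent.W711.HT Pool.Agent.Y472
open Pool.Agent.W366.HT (cos_re' norm_cos_le norm_sin_le cosh_le_two)
open scoped Real

/-- the logarithm of the factors -/
noncomputable def el (χ u : ℂ) : ℂ := Complex.log (2 * Complex.cos (χ / 2) + 2 * Complex.cos u)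

/-- the region of the variable of `el` -/
def DD : Set ℂ := {u | |u.re| < π / 2 + 1 / 4 ∧ |u.im| < 1 / 4}

/-- the smaller region -/
def DE : Set ℂ := {u | |u.re| < π / 2 + 1 / 4 ∧ |u.im| < 1 / 8}

/-- the region of the parameter -/
def Gd (χ : ℂ) : Prop := 11 / 10 ≤ (2 * Complex.cos (χ / 2)).re ∧ |χ.im| ≤ 2

lemma DE_sub : DE ⊆ DD := fun _ hu => ⟨hu.1, hu.2.trans (by norm_num)⟩

lemma isOpen_DD : IsOpen DD :=
  (isOpen_lt (Complex.continuous_re.abs) continuous_const).inter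
    (isOpen_lt (Complex.continuous_im.abs) continuous_const)

lemma isOpen_DE : IsOpen DE :=
  (isOpen_lt (Complex.continuous_re.abs) continuous_const).inter
    (isOpen_lt (Complex.continuous_im.abs) continuous_const)

lemma star_DD : ∀ s ∈ DD, ∀ u : ℝ, u ∈ Set.Icc (0 : ℝ) 1 → (u : ℂ) * s ∈ DD := by
  rintro s ⟨h1, h2⟩ u ⟨hu0, hu1⟩
  have e1 : ((u : ℂ) * s).re = u * s.re := by simp
  have e2 : ((u : ℂ) * s).im = u * s.im := by simp
  refine ⟨?_, ?_⟩
  · rw [e1, abs_mul, abs_of_nonneg hu0]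
    exact (mul_le_of_le_one_left (abs_nonneg _) hu1).trans_lt h1
  · rw [e2, abs_mul, abs_of_nonneg hu0]
    exact (mul_le_of_le_one_left (abs_nonneg _) hu1).trans_lt h2

lemma cosh_small {y : ℝ} (hy : |y| < 1 / 4) : Real.cosh y ≤ 27 / 25 := by
  refine (Real.cosh_le_exp_half_sq y).trans ?_
  have h1 : y ^ 2 / 2 ≤ 1 / 32 := by
    rw [← sq_abs]
    nlinarith [abs_nonneg y]
  refine (Real.exp_le_exp.2 h1).trans ?_
  have h2 := Real.one_sub_le_exp_neg (1 / 32)
  have h3 : Real.exp (1 / 32) * Real.exp (-(1 / 32)) = 1 := by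
    rw [← Real.exp_add]
    simp
  have h4 := Real.exp_pos (1 / 32)
  nlinarith

lemma re_DD {u : ℂ} (hu : u ∈ DD) : -(27 / 100) ≤ (Complex.cos u).re := by
  rw [cos_re']
  have hpi := Real.pi_gt_three
  have h1 : -(1 / 4) ≤ Real.cos u.re := by
    rw [← Real.cos_abs]
    have h := Real.cos_le_cos_of_nonneg_of_le_pi (abs_nonneg u.re)
      (by linarith : π / 2 + 1 / 4 ≤ π) hu.1.le
    have h2 : Real.cos (π / 2 + 1 / 4) = -Real.sin (1 / 4) := by
      rw [add_comm, Real.cos_add_pi_div_two]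
    have h3 := Real.sin_le (x := 1 / 4) (by norm_num)
    linarith
  have h2 := cosh_small hu.2
  have h3 := Real.one_le_cosh u.im
  nlinarith

lemma arg_re {χ u : ℂ} (hχ : Gd χ) (hu : u ∈ DD) :
    1 / 2 ≤ (2 * Complex.cos (χ / 2) + 2 * Complex.cos u).re := by
  have h1 := re_DD hu
  have e : (2 * Complex.cos (χ / 2) + 2 * Complex.cos u).re =
      (2 * Complex.cos (χ / 2)).re + 2 * (Complex.cos u).re := by
    simp
  rw [e]
  have := hχ.1
  linarith

lemma arg_slit {χ u : ℂ} (hχ : Gd χ) (hu : u ∈ DD) :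
    2 * Complex.cos (χ / 2) + 2 * Complex.cos u ∈ Complex.slitPlane := by
  rw [Complex.mem_slitPlane_iff]
  left
  have := arg_re hχ hu
  linarith

lemma arg_ne {χ u : ℂ} (hχ : Gd χ) (hu : u ∈ DD) :
    2 * Complex.cos (χ / 2) + 2 * Complex.cos u ≠ 0 := Complex.slitPlane_ne_zero (arg_slit hχ hu)

lemma arg_norm {χ u : ℂ} (hχ : Gd χ) (hu : u ∈ DD) :
    ‖2 * Complex.cos (χ / 2) + 2 * Complex.cos u‖ ≤ 8 := by
  have h1 := norm_cos_le (χ / 2)
  have h2 := norm_cos_le u
  have h3 := cosh_small hu.2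
  have h4 : Real.cosh (χ / 2).im ≤ 2 := by
    refine cosh_le_two ?_
    have e : (χ / 2).im = χ.im / 2 := by simp
    rw [e, abs_div, abs_of_pos (by norm_num : (0:ℝ) < 2)]
    linarith [hχ.2]
  refine (norm_add_le _ _).trans ?_
  rw [norm_mul, norm_mul]
  have e : ‖(2:ℂ)‖ = 2 := by norm_num
  rw [e]
  linarith

lemma el_norm {χ u : ℂ} (hχ : Gd χ) (hu : u ∈ DD) : ‖el χ u‖ ≤ 12 := by
  have h1 := arg_re hχ hu
  have h2 := arg_norm hχ hu
  set w := 2 * Complex.cos (χ / 2) + 2 * Complex.cos u with hw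
  have h3 : 1 / 2 ≤ ‖w‖ := h1.trans (Complex.re_le_norm w)
  have h4 : el χ u = (Real.log ‖w‖ : ℂ) + Complex.arg w * Complex.I := rfl
  rw [h4]
  have h5 := norm_add_le (Real.log ‖w‖ : ℂ) (Complex.arg w * Complex.I)
  rw [norm_mul, Complex.norm_I, mul_one, Complex.norm_real, Complex.norm_real, Real.norm_eq_abs,
    Real.norm_eq_abs] at h5
  have h6 := Complex.abs_arg_le_pi w
  have h8 := Real.pi_lt_d2
  have h9 : |Real.log ‖w‖| ≤ 8 := by
    rw [abs_le]
    have hpos : 0 < ‖w‖ := by linarith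
    constructor
    · have := Real.one_sub_inv_le_log_of_pos hpos
      have h10 : ‖w‖⁻¹ ≤ 2 := by
        rw [inv_le_comm₀ hpos (by norm_num)]
        linarith
      linarith
    · have := Real.log_le_self hpos.le
      linarith
  linarith

lemma el_exp {χ u : ℂ} (hχ : Gd χ) (hu : u ∈ DD) :
    Complex.exp (el χ u) = 2 * Complex.cos (χ / 2) + 2 * Complex.cos u :=
  Complex.exp_log (arg_ne hχ hu)

/-- the derivative of `el` -/
noncomputable def el1 (χ u : ℂ) : ℂ :=
  -(2 * Complex.sin u) / (2 * Complex.cos (χ / 2) + 2 * Complex.cos u)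

lemma el_deriv {χ u : ℂ} (hχ : Gd χ) (hu : u ∈ DD) : HasDerivAt (el χ) (el1 χ u) u := by
  have h1 : HasDerivAt (fun u => 2 * Complex.cos (χ / 2) + 2 * Complex.cos u)
      (-(2 * Complex.sin u)) u := by
    refine (((Complex.hasDerivAt_cos u).const_mul 2).const_add (2 * Complex.cos (χ / 2))).congr_deriv
      ?_
    ring
  exact h1.clog (arg_slit hχ hu)

lemma el_diff {χ : ℂ} (hχ : Gd χ) : DifferentiableOn ℂ (el χ) DD := fun _ hu =>
  (el_deriv hχ hu).differentiableAt.differentiableWithinAt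

lemma FF_deriv {χ u : ℂ} (hχ : Gd χ) (hu : u ∈ DD) : HasDerivAt (FF χ) (el χ u) u := by
  have h1 := Pool.Agent.TH41.BL.LMAf.prim isOpen_DD star_DD (el_diff hχ) hu
  have h2 : FF χ = fun s : ℂ => ∫ u in (0 : ℝ)..1, s * el χ (u * s) := by
    funext s
    rw [intervalIntegral.integral_const_mul]
    unfold FF el
    simp_rw [mul_comm s]
  rw [h2]
  exact h1

lemma FF_zero (χ : ℂ) : FF χ 0 = 0 := by
  unfold FF
  rw [zero_mul]

/-- the integral of `el` over a horizontal segment -/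
lemma int_el {χ a : ℂ} {L : ℝ} (hχ : Gd χ) (hL : 0 ≤ L)
    (ha : ∀ x : ℝ, 0 ≤ x → x ≤ L → a + x ∈ DD) :
    ∫ x in (0:ℝ)..L, el χ (a + x) = FF χ (a + L) - FF χ a := by
  have h1 : ∀ x ∈ Set.uIcc 0 L, HasDerivAt (fun x : ℝ => FF χ (a + x)) (el χ (a + x)) x := by
    intro x hx
    rw [Set.uIcc_of_le hL] at hx
    have h2 := FF_deriv hχ (ha x hx.1 hx.2)
    have h3 : HasDerivAt (fun x : ℝ => a + (x : ℂ)) 1 x := by
      exact (Complex.ofRealCLM.hasDerivAt (x := x)).const_add a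
    have h4 := HasDerivAt.comp (h₂ := FF χ) (h := fun x : ℝ => a + (x : ℂ)) x h2 h3
    rw [mul_one] at h4
    exact h4
  have h2 : IntervalIntegrable (fun x : ℝ => el χ (a + x)) volume 0 L := by
    apply ContinuousOn.intervalIntegrable
    rw [Set.uIcc_of_le hL]
    refine (el_diff hχ).continuousOn.comp (f := fun x : ℝ => a + (x : ℂ)) (by fun_prop) ?_
    intro x hx
    exact ha x hx.1 hx.2
  rw [intervalIntegral.integral_eq_sub_of_hasDerivAt h1 h2]
  simp

/-! ### Lipschitz bounds -/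

lemma sin_le2 {z : ℂ} (hz : |z.im| ≤ 1) : ‖Complex.sin z‖ ≤ 2 :=
  (norm_sin_le z).trans (cosh_le_two hz)

lemma convex_strip : Convex ℝ {z : ℂ | |z.im| ≤ 1} := by
  have h1 : {z : ℂ | |z.im| ≤ 1} = Complex.imCLM ⁻¹' Set.Icc (-1) 1 := by
    ext z
    rw [Set.mem_ofPred_eq, abs_le]
    rfl
  rw [h1]
  exact (convex_Icc (-1 : ℝ) 1).is_linear_preimage Complex.imCLM.isLinear

lemma cos_lip {z z' : ℂ} (hz : |z.im| ≤ 1) (hz' : |z'.im| ≤ 1) :
    ‖Complex.cos z - Complex.cos z'‖ ≤ 2 * ‖z - z'‖ := by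
  refine Convex.norm_image_sub_le_of_norm_hasDerivWithin_le (f := Complex.cos)
    (f' := fun z => -Complex.sin z) (s := {z : ℂ | |z.im| ≤ 1}) ?_ ?_ convex_strip hz' hz
  · intro x _
    exact (Complex.hasDerivAt_cos x).hasDerivWithinAt
  · intro x hx
    rw [norm_neg]
    exact sin_le2 hx

lemma log_lip {z z' : ℂ} (hz : 1 / 2 ≤ z.re) (hz' : 1 / 2 ≤ z'.re) :
    ‖Complex.log z - Complex.log z'‖ ≤ 2 * ‖z - z'‖ := by
  refine Convex.norm_image_sub_le_of_norm_hasDerivWithin_le (f := Complex.log)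
    (f' := fun z => z⁻¹) (s := {z : ℂ | 1 / 2 ≤ z.re}) ?_ ?_ (convex_halfSpace_re_ge _) hz' hz
  · intro x hx
    refine (Complex.hasDerivAt_log ?_).hasDerivWithinAt
    rw [Complex.mem_slitPlane_iff]
    left
    have : (1:ℝ) / 2 ≤ x.re := hx
    linarith
  · intro x hx
    have h1 : (1:ℝ) / 2 ≤ x.re := hx
    have h2 := h1.trans (Complex.re_le_norm x)
    rw [norm_inv, inv_le_comm₀ (by linarith) (by norm_num)]
    linarith

lemma el_lip {χ χ' u u' : ℂ} (hχ : Gd χ) (hχ' : Gd χ') (hu : u ∈ DD) (hu' : u' ∈ DD) :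
    ‖el χ u - el χ' u'‖ ≤ 4 * ‖χ - χ'‖ + 8 * ‖u - u'‖ := by
  have h1 := log_lip (arg_re hχ hu) (arg_re hχ' hu')
  have h2 : |(χ / 2).im| ≤ 1 := by
    have e : (χ / 2).im = χ.im / 2 := by simp
    rw [e, abs_div, abs_of_pos (by norm_num : (0:ℝ) < 2)]
    linarith [hχ.2]
  have h3 : |(χ' / 2).im| ≤ 1 := by
    have e : (χ' / 2).im = χ'.im / 2 := by simp
    rw [e, abs_div, abs_of_pos (by norm_num : (0:ℝ) < 2)]
    linarith [hχ'.2]
  have h4 := cos_lip h2 h3
  have h5 := cos_lip (hu.2.le.trans (by norm_num : (1:ℝ) / 4 ≤ 1))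
    (hu'.2.le.trans (by norm_num : (1:ℝ) / 4 ≤ 1))
  have e1 : χ / 2 - χ' / 2 = (χ - χ') / 2 := by ring
  rw [e1, norm_div, show ‖(2:ℂ)‖ = 2 by norm_num] at h4
  refine h1.trans ?_
  have e2 : 2 * Complex.cos (χ / 2) + 2 * Complex.cos u -
      (2 * Complex.cos (χ' / 2) + 2 * Complex.cos u') =
      2 * (Complex.cos (χ / 2) - Complex.cos (χ' / 2)) + 2 * (Complex.cos u - Complex.cos u') := by
    ring
  rw [e2]
  have h6 := norm_add_le (2 * (Complex.cos (χ / 2) - Complex.cos (χ' / 2)))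
    (2 * (Complex.cos u - Complex.cos u'))
  rw [norm_mul, norm_mul, show ‖(2:ℂ)‖ = 2 by norm_num] at h6
  linarith

lemma DD_norm {u : ℂ} (hu : u ∈ DD) : ‖u‖ ≤ 3 := by
  have h1 := Complex.norm_le_abs_re_add_abs_im u
  have h2 := Real.pi_lt_d2
  have h3 := hu.1
  have h4 := hu.2
  linarith

lemma FF_lip {χ χ' u u' : ℂ} (hχ : Gd χ) (hχ' : Gd χ') (hu : u ∈ DD) (hu' : u' ∈ DD) :
    ‖FF χ u - FF χ' u'‖ ≤ 12 * ‖χ - χ'‖ + 36 * ‖u - u'‖ := by
  have hc : ∀ {χ u : ℂ}, Gd χ → u ∈ DD →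
      ContinuousOn (fun x : ℝ => el χ (u * x)) (Set.Icc 0 1) := by
    intro χ u hχ hu
    refine (el_diff hχ).continuousOn.comp (f := fun x : ℝ => u * (x : ℂ)) (by fun_prop) ?_
    intro x hx
    have := star_DD u hu x hx
    rw [mul_comm] at this
    exact this
  have hi : ∀ {χ u : ℂ}, Gd χ → u ∈ DD →
      IntervalIntegrable (fun x : ℝ => el χ (u * x)) volume 0 1 := by
    intro χ u hχ hu
    apply ContinuousOn.intervalIntegrable
    rw [Set.uIcc_of_le zero_le_one]
    exact hc hχ hu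
  have e0 : ∀ χ u : ℂ, FF χ u = u * ∫ x in (0:ℝ)..1, el χ (u * x) := fun χ u => rfl
  have e1 : FF χ u - FF χ' u' = (u - u') * (∫ x in (0:ℝ)..1, el χ (u * x)) +
      u' * ∫ x in (0:ℝ)..1, (el χ (u * x) - el χ' (u' * x)) := by
    rw [e0, e0, intervalIntegral.integral_sub (hi hχ hu) (hi hχ' hu')]
    ring
  have h1 : ‖∫ x in (0:ℝ)..1, el χ (u * x)‖ ≤ 12 := by
    have := intervalIntegral.norm_integral_le_of_norm_le_const (a := 0) (b := 1) (C := 12)
      (f := fun x : ℝ => el χ (u * x)) ?_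
    · simpa using this
    · intro x hx
      rw [Set.uIoc_of_le zero_le_one] at hx
      have := star_DD u hu x ⟨hx.1.le, hx.2⟩
      rw [mul_comm] at this
      exact el_norm hχ this
  have h2 : ‖∫ x in (0:ℝ)..1, (el χ (u * x) - el χ' (u' * x))‖ ≤
      4 * ‖χ - χ'‖ + 8 * ‖u - u'‖ := by
    have := intervalIntegral.norm_integral_le_of_norm_le_const (a := 0) (b := 1)
      (C := 4 * ‖χ - χ'‖ + 8 * ‖u - u'‖) (f := fun x : ℝ => el χ (u * x) - el χ' (u' * x)) ?_
    · simpa using this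
    · intro x hx
      rw [Set.uIoc_of_le zero_le_one] at hx
      have m1 := star_DD u hu x ⟨hx.1.le, hx.2⟩
      have m2 := star_DD u' hu' x ⟨hx.1.le, hx.2⟩
      rw [mul_comm] at m1 m2
      refine (el_lip hχ hχ' m1 m2).trans ?_
      have e3 : u * (x : ℂ) - u' * x = (u - u') * x := by ring
      rw [e3, norm_mul, Complex.norm_real, Real.norm_of_nonneg hx.1.le]
      have := mul_le_of_le_one_right (norm_nonneg (u - u')) hx.2
      linarith
  rw [e1]
  refine (norm_add_le _ _).trans ?_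
  rw [norm_mul, norm_mul]
  have h3 := DD_norm hu'
  have h4 := norm_nonneg (u - u')
  have h5 := norm_nonneg (χ - χ')
  have h6 := norm_nonneg u'
  have h7 : ‖u - u'‖ * ‖∫ x in (0:ℝ)..1, el χ (u * x)‖ ≤ ‖u - u'‖ * 12 :=
    mul_le_mul_of_nonneg_left h1 h4
  have h8 : ‖u'‖ * ‖∫ x in (0:ℝ)..1, (el χ (u * x) - el χ' (u' * x))‖ ≤
      3 * (4 * ‖χ - χ'‖ + 8 * ‖u - u'‖) := mul_le_mul h3 h2 (norm_nonneg _) (by norm_num)
  linarith

lemma FF_norm {χ u : ℂ} (hχ : Gd χ) (hu : u ∈ DD) : ‖FF χ u‖ ≤ 36 := by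
  have h0 : (0:ℂ) ∈ DD := by
    refine ⟨?_, ?_⟩
    · rw [Complex.zero_re, abs_zero]
      have := Real.pi_pos
      linarith
    · rw [Complex.zero_im, abs_zero]
      norm_num
  have h1 : ‖∫ x in (0:ℝ)..1, el χ (u * x)‖ ≤ 12 := by
    have := intervalIntegral.norm_integral_le_of_norm_le_const (a := 0) (b := 1) (C := 12)
      (f := fun x : ℝ => el χ (u * x)) ?_
    · simpa using this
    · intro x hx
      rw [Set.uIoc_of_le zero_le_one] at hx
      have := star_DD u hu x ⟨hx.1.le, hx.2⟩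
      rw [mul_comm] at this
      exact el_norm hχ this
  have e0 : FF χ u = u * ∫ x in (0:ℝ)..1, el χ (u * x) := rfl
  rw [e0, norm_mul]
  have h3 := DD_norm hu
  calc ‖u‖ * ‖∫ x in (0:ℝ)..1, el χ (u * x)‖ ≤ 3 * 12 :=
        mul_le_mul h3 h1 (norm_nonneg _) (by norm_num)
    _ = 36 := by norm_num

/-! ### The end correction -/

lemma DE_shift {u : ℂ} (hu : u ∈ DE) {y : ℝ} (hy0 : 0 ≤ y) (hy : y ≤ 1 / 8) :
    u - y * Complex.I ∈ DD ∧ u + y * Complex.I ∈ DD := by
  have h := abs_lt.1 hu.2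
  refine ⟨⟨?_, ?_⟩, ?_, ?_⟩
  · have e : (u - y * Complex.I).re = u.re := by simp
    rw [e]
    exact hu.1
  · have e : (u - y * Complex.I).im = u.im - y := by simp
    rw [e, abs_lt]
    constructor <;> linarith [h.1, h.2]
  · have e : (u + y * Complex.I).re = u.re := by simp
    rw [e]
    exact hu.1
  · have e : (u + y * Complex.I).im = u.im + y := by simp
    rw [e, abs_lt]
    constructor <;> linarith [h.1, h.2]

lemma Dc_int_norm {χ u : ℂ} (hχ : Gd χ) (hu : u ∈ DE) (N : ℕ) {y : ℝ} (hy0 : 0 ≤ y)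
    (hy : y ≤ 1 / 8) :
    ‖(el χ (u - y * Complex.I) - el χ (u + y * Complex.I)) / (1 + Real.exp (N * y) : ℝ)‖ ≤
      24 * Real.exp (-(N * y)) := by
  obtain ⟨h1, h2⟩ := DE_shift hu hy0 hy
  have h3 := el_norm hχ h1
  have h4 := el_norm hχ h2
  have h5 := Real.exp_pos (N * y)
  rw [norm_div, Complex.norm_real, Real.norm_of_nonneg (by linarith), div_le_iff₀ (by linarith)]
  have h6 : Real.exp (-(N * y)) * Real.exp (N * y) = 1 := by
    rw [← Real.exp_add]
    simp
  have h7 := norm_sub_le (el χ (u - y * Complex.I)) (el χ (u + y * Complex.I))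
  have h8 := Real.exp_pos (-(N * y))
  calc ‖el χ (u - y * Complex.I) - el χ (u + y * Complex.I)‖ ≤ 24 := by linarith
    _ = 24 * (Real.exp (-(N * y)) * Real.exp (N * y)) := by rw [h6, mul_one]
    _ ≤ 24 * Real.exp (-(N * y)) * (1 + Real.exp (N * y)) := by nlinarith

lemma Dc_norm {χ u : ℂ} (hχ : Gd χ) (hu : u ∈ DE) {N : ℕ} (hN : 0 < N) :
    ‖Dc (1 / 8) N (el χ) u‖ ≤ 24 / N := by
  have hN' : (0:ℝ) < N := by exact_mod_cast hN
  unfold Dc
  rw [norm_mul, Complex.norm_I, one_mul]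
  have h1 : ‖∫ y in (0:ℝ)..(1 / 8), (el χ (u - y * Complex.I) - el χ (u + y * Complex.I)) /
      (1 + Real.exp (N * y) : ℝ)‖ ≤ ∫ y in (0:ℝ)..(1 / 8), 24 * Real.exp (-(N * y)) := by
    refine intervalIntegral.norm_integral_le_of_norm_le (by norm_num) ?_ ?_
    · refine Eventually.of_forall fun y hy => ?_
      exact Dc_int_norm hχ hu N hy.1.le hy.2
    · exact (by fun_prop : Continuous fun y : ℝ => 24 * Real.exp (-(N * y))).intervalIntegrable _ _
  refine h1.trans ?_
  have h2 : ∀ y ∈ Set.uIcc (0:ℝ) (1 / 8), HasDerivAt (fun y : ℝ => -(24 / N) * Real.exp (-(N * y)))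
      (24 * Real.exp (-(N * y))) y := by
    intro y _
    have h3 : HasDerivAt (fun y : ℝ => -(N * y)) (-(N : ℝ)) y := by
      have h4 := ((hasDerivAt_id y).const_mul (N : ℝ)).neg
      rw [mul_one] at h4
      exact h4
    refine (h3.exp.const_mul (-(24 / (N : ℝ)))).congr_deriv ?_
    field_simp
  rw [intervalIntegral.integral_eq_sub_of_hasDerivAt h2
    ((by fun_prop : Continuous fun y : ℝ => 24 * Real.exp (-(N * y))).intervalIntegrable _ _)]
  rw [mul_zero, neg_zero, Real.exp_zero]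
  have h4 := Real.exp_pos (-(N * (1 / 8)))
  have h5 : 0 < 24 / (N : ℝ) := by positivity
  nlinarith

lemma Dc_diff {χ : ℂ} (hχ : Gd χ) (N : ℕ) : DifferentiableOn ℂ (Dc (1 / 8) N (el χ)) DE := by
  have h18 : (0:ℝ) ≤ 1 / 8 := by norm_num
  have h1 : DifferentiableOn ℂ (fun u => ∫ y, (el χ (u - (y : ℝ) * Complex.I) -
      el χ (u + y * Complex.I)) / (1 + Real.exp (N * y) : ℝ)
        ∂(volume.restrict (Set.Ioc (0:ℝ) (1 / 8)))) DE := by
    refine MP27fa52.diffOn_integral isOpen_DE _ _ (fun _ => 24) ?_ ?_ ?_ ?_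
    · exact integrable_const _
    · intro u hu
      refine ContinuousOn.aestronglyMeasurable ?_ measurableSet_Ioc
      refine ContinuousOn.div ?_ (by fun_prop) ?_
      · refine ContinuousOn.sub ?_ ?_
        · refine (el_diff hχ).continuousOn.comp (f := fun y : ℝ => u - (y : ℂ) * Complex.I)
            (by fun_prop) ?_
          intro y hy
          exact (DE_shift hu hy.1.le hy.2).1
        · refine (el_diff hχ).continuousOn.comp (f := fun y : ℝ => u + (y : ℂ) * Complex.I)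
            (by fun_prop) ?_
          intro y hy
          exact (DE_shift hu hy.1.le hy.2).2
      · intro y _ h0
        have h5 := Real.exp_pos (N * y)
        have h6 : (1 + Real.exp (N * y) : ℝ) = 0 := by exact_mod_cast h0
        linarith
    · refine (ae_restrict_iff' measurableSet_Ioc).2 (Eventually.of_forall fun y hy => ?_)
      refine DifferentiableOn.div_const ?_ _
      refine DifferentiableOn.sub ?_ ?_
      · refine (el_diff hχ).comp (f := fun u : ℂ => u - (y : ℂ) * Complex.I) (by fun_prop) ?_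
        intro u hu
        exact (DE_shift hu hy.1.le hy.2).1
      · refine (el_diff hχ).comp (f := fun u : ℂ => u + (y : ℂ) * Complex.I) (by fun_prop) ?_
        intro u hu
        exact (DE_shift hu hy.1.le hy.2).2
    · refine (ae_restrict_iff' measurableSet_Ioc).2 (Eventually.of_forall fun y hy u hu => ?_)
      refine (Dc_int_norm hχ hu N hy.1.le hy.2).trans ?_
      have h3 : Real.exp (-(N * y)) ≤ 1 := by
        rw [Real.exp_le_one_iff]
        have := hy.1
        have : 0 ≤ (N:ℝ) * y := by positivity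
        linarith
      linarith
  refine (h1.const_mul Complex.I).congr fun u _ => ?_
  unfold Dc
  rw [intervalIntegral.integral_of_le h18]

end Pool.Agent.Y319.CG
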