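import Pool.Agent.Y319.CG.LozA

/-!
# CB3-G-LOZ: the exponents and the interpolating function
-/

set_option autoImplicit false

namespace Pool.Agent.Y319.CG

open Finset Filter Topology Metric MeasureTheory
open Pool.Agent.W711.HT Pool.Agent.Y472
open scoped Real

/-- the primitive with the end correction -/
noncomputable def gN (N : ℕ) (χ u : ℂ) : ℂ := FF χ u - Dc (1 / 8) N (el χ) u

/-- the box of the small variables -/
abbrev Bo : Set ℂ := Rc (1 / 16) (1 / 16)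

lemma mem_DE {c : ℝ} (hc : |c| ≤ π) {v : ℂ} (hv : |v.re| < 1 / 4) (hv' : |v.im| < 1 / 8) :
    v + c / 2 ∈ DE ∧ v - c / 2 ∈ DE := by
  rw [abs_le] at hc
  rw [abs_lt] at hv
  have e1 : (v + c / 2).re = v.re + c / 2 := by simp
  have e2 : (v - c / 2).re = v.re - c / 2 := by simp
  have e3 : (v + c / 2).im = v.im := by simp
  have e4 : (v - c / 2).im = v.im := by simp
  refine ⟨⟨?_, ?_⟩, ?_, ?_⟩
  · rw [e1, abs_lt]
    constructor <;> linarith [hc.1, hc.2, hv.1, hv.2]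
  · rw [e3]
    exact hv'
  · rw [e2, abs_lt]
    constructor <;> linarith [hc.1, hc.2, hv.1, hv.2]
  · rw [e4]
    exact hv'

lemma small3 {t a b : ℂ} (ht : t ∈ Bo) (ha : a ∈ Bo) (hb : b ∈ Bo) :
    |(t + a / 2 + b / 2).re| < 1 / 4 ∧ |(t + a / 2 + b / 2).im| < 1 / 8 := by
  obtain ⟨h1, h2⟩ := ht
  obtain ⟨h3, h4⟩ := ha
  obtain ⟨h5, h6⟩ := hb
  rw [abs_lt] at h1 h2 h3 h4 h5 h6
  have e1 : (t + a / 2 + b / 2).re = t.re + a.re / 2 + b.re / 2 := by simp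
  have e2 : (t + a / 2 + b / 2).im = t.im + a.im / 2 + b.im / 2 := by simp
  rw [e1, e2, abs_lt, abs_lt]
  refine ⟨⟨?_, ?_⟩, ?_, ?_⟩ <;> linarith [h1.1, h1.2, h2.1, h2.2, h3.1, h3.2, h4.1, h4.2, h5.1,
    h5.2, h6.1, h6.2]

lemma neg_Bo {a : ℂ} (ha : a ∈ Bo) : -a ∈ Bo := by
  obtain ⟨h1, h2⟩ := ha
  refine ⟨?_, ?_⟩
  · rw [Complex.neg_re, abs_neg]
    exact h1
  · rw [Complex.neg_im, abs_neg]
    exact h2

lemma mem4 {c : ℝ} (hc : |c| ≤ π) {t ψ x : ℂ} (ht : t ∈ Bo) (hψ : ψ ∈ Bo) (hx : x ∈ Bo) :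
    t + ψ / 2 + (c + x) / 2 ∈ DE ∧ t + ψ / 2 - (c + x) / 2 ∈ DE ∧
      t - ψ / 2 + (c - x) / 2 ∈ DE ∧ t - ψ / 2 - (c - x) / 2 ∈ DE := by
  have hψ' := neg_Bo hψ
  have hx' := neg_Bo hx
  refine ⟨?_, ?_, ?_, ?_⟩
  · obtain ⟨h1, h2⟩ := small3 ht hψ hx
    have := (mem_DE hc h1 h2).1
    have e : t + ψ / 2 + x / 2 + c / 2 = t + ψ / 2 + (c + x) / 2 := by ring
    rwa [e] at this
  · obtain ⟨h1, h2⟩ := small3 ht hψ hx'
    have := (mem_DE hc h1 h2).2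
    have e : t + ψ / 2 + -x / 2 - c / 2 = t + ψ / 2 - (c + x) / 2 := by ring
    rwa [e] at this
  · obtain ⟨h1, h2⟩ := small3 ht hψ' hx'
    have := (mem_DE hc h1 h2).1
    have e : t + -ψ / 2 + -x / 2 + c / 2 = t - ψ / 2 + (c - x) / 2 := by ring
    rwa [e] at this
  · obtain ⟨h1, h2⟩ := small3 ht hψ' hx
    have := (mem_DE hc h1 h2).2
    have e : t + -ψ / 2 + x / 2 - c / 2 = t - ψ / 2 - (c - x) / 2 := by ring
    rwa [e] at this

/-- `π (N - 1) / N` -/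
noncomputable def cN (N : ℕ) : ℝ := π * (N - 1) / N

lemma cN_abs {N : ℕ} (hN : 0 < N) : |cN N| ≤ π := by
  have hN' : (0:ℝ) < N := by exact_mod_cast hN
  have hN1 : (1:ℝ) ≤ N := by exact_mod_cast hN
  have hpi := Real.pi_pos
  unfold cN
  rw [abs_le]
  constructor
  · have : 0 ≤ π * (N - 1) / N := by
      apply div_nonneg _ hN'.le
      exact mul_nonneg hpi.le (by linarith)
    linarith
  · rw [div_le_iff₀ hN']
    nlinarith

lemma cN_eq {N : ℕ} (hN : 0 < N) : cN N = π - π / N := by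
  have hN' : (0:ℝ) < N := by exact_mod_cast hN
  unfold cN
  field_simp

/-- the exponent -/
noncomputable def ph (N : ℕ) (χ ψ x t : ℂ) : ℂ :=
  (gN N χ (t + ψ / 2 + (cN N + x) / 2) - gN N χ (t + ψ / 2 - (cN N + x) / 2) +
    gN N χ (t - ψ / 2 + (cN N - x) / 2) - gN N χ (t - ψ / 2 - (cN N - x) / 2)) / (2 * π)

lemma gN_diff {χ : ℂ} (hχ : Gd χ) (N : ℕ) : DifferentiableOn ℂ (gN N χ) DE := by
  refine DifferentiableOn.sub ?_ (Dc_diff hχ N)
  intro u hu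
  exact (FF_deriv hχ (DE_sub hu)).differentiableAt.differentiableWithinAt

lemma gN_norm {χ u : ℂ} (hχ : Gd χ) {N : ℕ} (hN : 0 < N) (hu : u ∈ DE) : ‖gN N χ u‖ ≤ 60 := by
  have h1 := FF_norm hχ (DE_sub hu)
  have h2 := Dc_norm hχ hu hN
  have hN1 : (1:ℝ) ≤ N := by exact_mod_cast hN
  have h3 : 24 / (N:ℝ) ≤ 24 := by
    rw [div_le_iff₀ (by linarith)]
    linarith
  refine (norm_sub_le _ _).trans ?_
  linarith

lemma gN_close {χ χ' u u' : ℂ} (hχ : Gd χ) (hχ' : Gd χ') {N : ℕ} (hN : 0 < N) (hu : u ∈ DE)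
    (hu' : u' ∈ DE) : ‖gN N χ u - FF χ' u'‖ ≤ 12 * ‖χ - χ'‖ + 36 * ‖u - u'‖ + 24 / N := by
  have h1 := FF_lip hχ hχ' (DE_sub hu) (DE_sub hu')
  have h2 := Dc_norm hχ hu hN
  have e : gN N χ u - FF χ' u' = (FF χ u - FF χ' u') - Dc (1 / 8) N (el χ) u := by
    unfold gN
    ring
  rw [e]
  refine (norm_sub_le _ _).trans ?_
  linarith

lemma isOpen_Bo : IsOpen Bo :=
  (isOpen_lt (Complex.continuous_re.abs) continuous_const).inter
    (isOpen_lt (Complex.continuous_im.abs) continuous_const)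

lemma ph_diff_t {χ ψ x : ℂ} (hχ : Gd χ) {N : ℕ} (hN : 0 < N) (hψ : ψ ∈ Bo) (hx : x ∈ Bo) :
    DifferentiableOn ℂ (ph N χ ψ x) Bo := by
  have hg := gN_diff hχ N
  have h4 := fun t ht => mem4 (cN_abs hN) (t := t) ht hψ hx
  unfold ph
  refine DifferentiableOn.div_const ?_ _
  refine DifferentiableOn.sub (DifferentiableOn.add (DifferentiableOn.sub ?_ ?_) ?_) ?_
  · exact hg.comp (f := fun t : ℂ => t + ψ / 2 + (cN N + x) / 2) (by fun_prop) fun t ht => (h4 t ht).1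
  · exact hg.comp (f := fun t : ℂ => t + ψ / 2 - (cN N + x) / 2) (by fun_prop)
      fun t ht => (h4 t ht).2.1
  · exact hg.comp (f := fun t : ℂ => t - ψ / 2 + (cN N - x) / 2) (by fun_prop)
      fun t ht => (h4 t ht).2.2.1
  · exact hg.comp (f := fun t : ℂ => t - ψ / 2 - (cN N - x) / 2) (by fun_prop)
      fun t ht => (h4 t ht).2.2.2

lemma ph_diff_x {χ ψ t : ℂ} (hχ : Gd χ) {N : ℕ} (hN : 0 < N) (hψ : ψ ∈ Bo) (ht : t ∈ Bo) :
    DifferentiableOn ℂ (fun x => ph N χ ψ x t) Bo := by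
  have hg := gN_diff hχ N
  have h4 := fun x hx => mem4 (cN_abs hN) ht hψ (x := x) hx
  unfold ph
  refine DifferentiableOn.div_const ?_ _
  refine DifferentiableOn.sub (DifferentiableOn.add (DifferentiableOn.sub ?_ ?_) ?_) ?_
  · exact hg.comp (f := fun x : ℂ => t + ψ / 2 + (cN N + x) / 2) (by fun_prop) fun x hx => (h4 x hx).1
  · exact hg.comp (f := fun x : ℂ => t + ψ / 2 - (cN N + x) / 2) (by fun_prop)
      fun x hx => (h4 x hx).2.1
  · exact hg.comp (f := fun x : ℂ => t - ψ / 2 + (cN N - x) / 2) (by fun_prop)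
      fun x hx => (h4 x hx).2.2.1
  · exact hg.comp (f := fun x : ℂ => t - ψ / 2 - (cN N - x) / 2) (by fun_prop)
      fun x hx => (h4 x hx).2.2.2

lemma two_pi_norm : ‖(2 * π : ℂ)‖ = 2 * π := by
  rw [norm_mul, Complex.norm_real, Real.norm_of_nonneg Real.pi_pos.le]
  norm_num

lemma four_norm (a b c d : ℂ) {A : ℝ} (h1 : ‖a‖ ≤ A) (h2 : ‖b‖ ≤ A) (h3 : ‖c‖ ≤ A) (h4 : ‖d‖ ≤ A) :
    ‖(a - b + c - d) / (2 * π)‖ ≤ A := by
  have hpi := Real.pi_gt_three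
  rw [norm_div, two_pi_norm, div_le_iff₀ (by linarith)]
  have h5 := norm_sub_le (a - b + c) d
  have h6 := norm_add_le (a - b) c
  have h7 := norm_sub_le a b
  have h8 : 0 ≤ A := (norm_nonneg _).trans h1
  nlinarith

lemma ph_norm {χ ψ x t : ℂ} (hχ : Gd χ) {N : ℕ} (hN : 0 < N) (hψ : ψ ∈ Bo) (hx : x ∈ Bo)
    (ht : t ∈ Bo) : ‖ph N χ ψ x t‖ ≤ 60 := by
  obtain ⟨h1, h2, h3, h4⟩ := mem4 (cN_abs hN) ht hψ hx
  exact four_norm _ _ _ _ (gN_norm hχ hN h1) (gN_norm hχ hN h2) (gN_norm hχ hN h3)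
    (gN_norm hχ hN h4)

lemma ph_close {χ ψ x t χ' ψ' x' : ℂ} (hχ : Gd χ) (hχ' : Gd χ') {N : ℕ} (hN : 0 < N)
    (hψ : ψ ∈ Bo) (hx : x ∈ Bo) (hψ' : ψ' ∈ Bo) (hx' : x' ∈ Bo) (ht : t ∈ Bo) :
    ‖ph N χ ψ x t - Fz χ' ψ' x' t‖ ≤
      12 * ‖χ - χ'‖ + 18 * ‖ψ - ψ'‖ + 18 * ‖x - x'‖ + 96 / N := by
  have hN' : (0:ℝ) < N := by exact_mod_cast hN
  have hpi := Real.pi_pos
  have hpi4 := Real.pi_lt_four
  obtain ⟨h1, h2, h3, h4⟩ := mem4 (cN_abs hN) ht hψ hx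
  obtain ⟨k1, k2, k3, k4⟩ := mem4 (c := π) (by rw [abs_of_pos hpi]) ht hψ' hx'
  have hc : ‖((cN N : ℝ) : ℂ) - π‖ = π / N := by
    rw [cN_eq hN]
    push_cast
    have e : (π : ℂ) - π / N - π = -(((π / N : ℝ)) : ℂ) := by
      push_cast
      ring
    rw [e, norm_neg, Complex.norm_real, Real.norm_of_nonneg (by positivity)]
  have key : ∀ (s1 s2 s3 : ℂ), ‖s1‖ = 1 → ‖s2‖ = 1 → ‖s3‖ = 1 → ∀ u u' : ℂ,
      u - u' = s1 * ((ψ - ψ') / 2) + s2 * ((x - x') / 2) + s3 * (((cN N : ℝ) : ℂ) - π) / 2 →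
      36 * ‖u - u'‖ ≤ 18 * ‖ψ - ψ'‖ + 18 * ‖x - x'‖ + 72 / N := by
    intro s1 s2 s3 e1 e2 e3 u u' hu
    have h5 : ‖u - u'‖ ≤ ‖ψ - ψ'‖ / 2 + ‖x - x'‖ / 2 + (π / N) / 2 := by
      rw [hu]
      refine (norm_add_le _ _).trans ?_
      refine add_le_add ((norm_add_le _ _).trans ?_) ?_
      · rw [norm_mul, norm_mul, e1, e2, one_mul, one_mul, norm_div, norm_div]
        norm_num
      · rw [norm_div, norm_mul, e3, one_mul, hc]
        norm_num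
    have h6 : 18 * (π / N) ≤ 72 / N := by
      rw [← mul_div_assoc, div_le_div_iff_of_pos_right hN']
      linarith
    linarith
  have hb : ∀ (u u' : ℂ), u ∈ DE → u' ∈ DE →
      36 * ‖u - u'‖ ≤ 18 * ‖ψ - ψ'‖ + 18 * ‖x - x'‖ + 72 / N →
      ‖gN N χ u - FF χ' u'‖ ≤ 12 * ‖χ - χ'‖ + 18 * ‖ψ - ψ'‖ + 18 * ‖x - x'‖ + 96 / N := by
    intro u u' hu hu' h
    refine (gN_close hχ hχ' hN hu hu').trans ?_
    have e : (96:ℝ) / N = 72 / N + 24 / N := by ring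
    rw [e]
    linarith
  have n1 : ‖(1:ℂ)‖ = 1 := norm_one
  have n2 : ‖(-1:ℂ)‖ = 1 := by rw [norm_neg, norm_one]
  have m1 := hb _ _ h1 k1 (key 1 1 1 n1 n1 n1 _ _ (by ring))
  have m2 := hb _ _ h2 k2 (key 1 (-1) (-1) n1 n2 n2 _ _ (by ring))
  have m3 := hb _ _ h3 k3 (key (-1) (-1) 1 n2 n2 n1 _ _ (by ring))
  have m4 := hb _ _ h4 k4 (key (-1) 1 (-1) n2 n1 n2 _ _ (by ring))
  have e : ph N χ ψ x t - Fz χ' ψ' x' t =
      ((gN N χ (t + ψ / 2 + (cN N + x) / 2) - FF χ' (t + ψ' / 2 + (π + x') / 2)) -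
        (gN N χ (t + ψ / 2 - (cN N + x) / 2) - FF χ' (t + ψ' / 2 - (π + x') / 2)) +
        (gN N χ (t - ψ / 2 + (cN N - x) / 2) - FF χ' (t - ψ' / 2 + (π - x') / 2)) -
        (gN N χ (t - ψ / 2 - (cN N - x) / 2) - FF χ' (t - ψ' / 2 - (π - x') / 2))) / (2 * π) := by
    unfold ph Fz
    ring
  rw [e]
  exact four_norm _ _ _ _ m1 m2 m3 m4

/-- the interpolating function -/
noncomputable def AA (δ : ℝ) (N : ℕ) (ψ x χ : ℂ) : ℂ :=
  ∫ t in (-δ)..δ, 1 / (2 * π) * Complex.exp (N * ph N χ ψ x t)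

lemma real_Bo {δ t : ℝ} (hδ : δ < 1 / 16) (h : |t| ≤ δ) : (t : ℂ) ∈ Bo := by
  refine ⟨?_, ?_⟩
  · rw [Complex.ofReal_re]
    linarith
  · rw [Complex.ofReal_im, abs_zero]
    norm_num

lemma AA_diff {δ : ℝ} (hδ0 : 0 < δ) (hδ : δ < 1 / 16) {χ ψ : ℂ} (hχ : Gd χ) {N : ℕ} (hN : 0 < N)
    (hψ : ψ ∈ Bo) : DifferentiableOn ℂ (fun x => AA δ N ψ x χ) Bo := by
  have hle : -δ ≤ δ := by linarith
  have hmem : ∀ t ∈ Set.Ioc (-δ) δ, (t : ℂ) ∈ Bo := fun t ht =>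
    real_Bo hδ (abs_le.2 ⟨ht.1.le, ht.2⟩)
  have h1 : DifferentiableOn ℂ (fun x => ∫ t, 1 / (2 * π) * Complex.exp (N * ph N χ ψ x (t : ℝ))
        ∂(volume.restrict (Set.Ioc (-δ) δ))) Bo := by
    refine MP27fa52.diffOn_integral isOpen_Bo _ _ (fun _ => Real.exp (N * 60)) ?_ ?_ ?_ ?_
    · exact integrable_const _
    · intro x hx
      refine ContinuousOn.aestronglyMeasurable ?_ measurableSet_Ioc
      refine continuousOn_const.mul (Complex.continuous_exp.comp_continuousOn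
        (continuousOn_const.mul ?_))
      exact (ph_diff_t hχ hN hψ hx).continuousOn.comp (f := fun t : ℝ => (t : ℂ)) (by fun_prop) hmem
    · refine (ae_restrict_iff' measurableSet_Ioc).2 (Eventually.of_forall fun t ht => ?_)
      refine (DifferentiableOn.cexp ?_).const_mul _
      exact (ph_diff_x hχ hN hψ (hmem t ht)).const_mul _
    · refine (ae_restrict_iff' measurableSet_Ioc).2 (Eventually.of_forall fun t ht x hx => ?_)
      have hpi := Real.pi_gt_three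
      rw [norm_mul, norm_div, norm_one, two_pi_norm, Complex.norm_exp]
      have h2 : 1 / (2 * π) ≤ 1 := by
        rw [div_le_one (by linarith)]
        linarith
      have h3 : (N * ph N χ ψ x t).re ≤ N * 60 := by
        refine (Complex.re_le_norm _).trans ?_
        rw [norm_mul, Complex.norm_natCast]
        exact mul_le_mul_of_nonneg_left (ph_norm hχ hN hψ hx (hmem t ht)) (Nat.cast_nonneg _)
      have h4 := Real.exp_le_exp.2 h3
      have h5 := Real.exp_pos (N * ph N χ ψ x t).re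
      have h6 : 0 < 1 / (2 * π) := by positivity
      nlinarith
  refine h1.congr fun x _ => ?_
  unfold AA
  rw [intervalIntegral.integral_of_le hle]

end Pool.Agent.Y319.CG
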