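import Pool.Agent.Y319.CG.LozB

/-!
# CB3-G-LOZ: the products
-/

set_option autoImplicit false

namespace Pool.Agent.Y319.CG

open Finset Filter Topology Metric MeasureTheory
open Pool.Agent.W711.HT Pool.Agent.Y472
open scoped Real

/-! ### The products at the nodes -/

lemma Cn_exp (hMPZ : S_MPZ) {χ v : ℂ} (hχ : Gd χ) {N n : ℕ} (hN : 8 ≤ N)
    (h1 : v + ((π * n / N : ℝ) : ℂ) ∈ DE) (h2 : v - ((π * n / N : ℝ) : ℂ) ∈ DE) :
    ∃ E : ℂ, ‖E‖ ≤ 48 * n * Real.exp (-(N * (1 / 8))) ∧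
      Cn N n χ v = Complex.exp (N * ((gN N χ (v + ((π * n / N : ℝ) : ℂ)) -
        gN N χ (v - ((π * n / N : ℝ) : ℂ))) / (2 * π)) + E) := by
  have hN0 : 0 < N := by omega
  have hN' : (0:ℝ) < N := by exact_mod_cast hN0
  have hNc : (N : ℂ) ≠ 0 := by exact_mod_cast hN0.ne'
  have hpi := Real.pi_pos
  set c : ℝ := π * n / N with hc
  have hc0 : 0 ≤ c := by positivity
  set a : ℂ := v - (c : ℂ) with ha
  have hac : a + ((2 * c : ℝ) : ℂ) = v + c := by
    rw [ha]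
    push_cast
    ring
  have hre : (v + (c : ℂ)).re = a.re + 2 * c := by
    rw [← hac]
    simp
  have hreg : ∀ u : ℂ, a.re ≤ u.re → u.re ≤ a.re + 2 * c → |u.im - a.im| ≤ 1 / 8 → u ∈ DD := by
    intro u k1 k2 k3
    have k4 := abs_lt.1 h2.1
    have k5 := abs_lt.1 h1.1
    rw [hre] at k5
    refine ⟨abs_lt.2 ⟨by linarith [k4.1], by linarith [k5.2]⟩, ?_⟩
    have k6 : u.im = (u.im - a.im) + a.im := by ring
    rw [k6]
    refine (abs_add_le _ _).trans_lt ?_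
    have := h2.2
    linarith
  have h2c : (2 * π * n / N : ℝ) = 2 * c := by
    rw [hc]
    ring
  have hM := hMPZ (1 / 8) 12 N n a (el χ) (by norm_num) (by norm_num) (by
    have : (8:ℝ) ≤ N := by exact_mod_cast hN
    linarith) (by
    intro u k1 k2 k3
    rw [h2c] at k2
    have hu := hreg u k1 k2 k3
    exact ⟨(el_deriv hχ hu).differentiableAt, el_norm hχ hu⟩)
  rw [h2c] at hM
  have hint := int_el (χ := χ) (a := a) (L := 2 * c) hχ (by positivity) (by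
    intro x k1 k2
    refine hreg _ ?_ ?_ ?_
    · simp [k1]
    · simp [k2]
    · simp)
  rw [hint] at hM
  have e1 : a + 2 * π * n / N = v + c := by
    rw [← hac, hc]
    push_cast
    ring
  rw [e1, hac] at hM
  set S : ℂ := ∑ j ∈ range n, el χ (a + π * (2 * (j : ℂ) + 1) / N) with hS
  refine ⟨S - N * ((gN N χ (v + c) - gN N χ a) / (2 * π)), ?_, ?_⟩
  · have e2 : S - N * ((gN N χ (v + c) - gN N χ a) / (2 * π)) =
        S - N / (2 * π) * (FF χ (v + c) - FF χ a -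
          (Dc (1 / 8) N (el χ) (v + c) - Dc (1 / 8) N (el χ) a)) := by
      unfold gN
      ring
    rw [e2]
    refine hM.trans (le_of_eq ?_)
    ring
  · rw [add_sub_cancel]
    have e3 : Complex.exp S = ∏ j ∈ range n,
        (2 * Complex.cos (χ / 2) + 2 * Complex.cos (a + π * (2 * (j : ℂ) + 1) / N)) := by
      rw [hS, Complex.exp_sum]
      refine Finset.prod_congr rfl fun j hj => ?_
      rw [Finset.mem_range] at hj
      refine el_exp hχ (hreg _ ?_ ?_ ?_)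
      · have e4 : a + π * (2 * (j : ℂ) + 1) / N = a + ((π * (2 * j + 1) / N : ℝ) : ℂ) := by
          push_cast
          ring
        rw [e4, Complex.add_re, Complex.ofReal_re]
        have : 0 ≤ π * (2 * j + 1) / N := by positivity
        linarith
      · have e4 : a + π * (2 * (j : ℂ) + 1) / N = a + ((π * (2 * j + 1) / N : ℝ) : ℂ) := by
          push_cast
          ring
        rw [e4, Complex.add_re, Complex.ofReal_re]
        have k1 : (j : ℝ) + 1 ≤ n := by exact_mod_cast hj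
        have k2 : π * (2 * j + 1) / N ≤ 2 * c := by
          rw [hc, ← mul_div_assoc, div_le_div_iff_of_pos_right hN']
          nlinarith
        linarith
      · have e4 : a + π * (2 * (j : ℂ) + 1) / N = a + ((π * (2 * j + 1) / N : ℝ) : ℂ) := by
          push_cast
          ring
        rw [e4, Complex.add_im, Complex.ofReal_im]
        simp
    rw [e3]
    unfold Cn
    rw [← Finset.prod_range_reflect]
    refine Finset.prod_congr rfl fun j hj => ?_
    rw [Finset.mem_range] at hj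
    congr 3
    have e5 : ((n - 1 - j : ℕ) : ℂ) = n - 1 - j := by
      rw [Nat.cast_sub (by omega), Nat.cast_sub (by omega)]
      simp
    rw [e5, ha, hc]
    push_cast
    field_simp
    ring

lemma CC_exp (hMPZ : S_MPZ) {χ ψ t : ℂ} (hχ : Gd χ) {N p q : ℕ} (hN : 8 ≤ N) (hpq : p + q + 1 = N)
    (hψ : ψ ∈ Bo) (ht : t ∈ Bo) (hx : (π * ((p : ℂ) - q) / N) ∈ Bo) :
    ∃ E : ℂ, ‖E‖ ≤ 48 * N * Real.exp (-(N * (1 / 8))) ∧
      Cn N p χ (t + ψ / 2) * Cn N q χ (t - ψ / 2) =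
        Complex.exp (N * ph N χ ψ (π * ((p : ℂ) - q) / N) t + E) := by
  have hN0 : 0 < N := by omega
  have hN' : (0:ℝ) < N := by exact_mod_cast hN0
  have hNc : (N : ℂ) ≠ 0 := by exact_mod_cast hN0.ne'
  obtain ⟨h1, h2, h3, h4⟩ := mem4 (cN_abs hN0) ht hψ hx
  have hq : (N : ℂ) = p + q + 1 := by
    rw [← hpq]
    push_cast
    ring
  have e1 : ((cN N : ℝ) + π * ((p : ℂ) - q) / N) / 2 = ((π * p / N : ℝ) : ℂ) := by
    unfold cN
    push_cast
    field_simp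
    rw [hq]
    ring
  have e2 : ((cN N : ℝ) - π * ((p : ℂ) - q) / N) / 2 = ((π * q / N : ℝ) : ℂ) := by
    unfold cN
    push_cast
    field_simp
    rw [hq]
    ring
  rw [e1] at h1 h2
  rw [e2] at h3 h4
  obtain ⟨E1, b1, c1⟩ := Cn_exp hMPZ hχ hN h1 h2
  obtain ⟨E2, b2, c2⟩ := Cn_exp hMPZ hχ hN h3 h4
  refine ⟨E1 + E2, ?_, ?_⟩
  · refine (norm_add_le _ _).trans ?_
    have h5 : (p : ℝ) + q ≤ N := by
      rw [← hpq]
      push_cast
      linarith
    have h6 := Real.exp_pos (-(N * (1 / 8)))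
    nlinarith
  · rw [c1, c2, ← Complex.exp_add]
    congr 1
    unfold ph
    rw [e1, e2]
    ring

/-! ### Bounds of the products -/

lemma sinh_le_cos (z : ℂ) : Real.sinh z.im ≤ ‖Complex.cos z‖ := by
  have h1 : Complex.cos z = (Complex.exp (z * Complex.I) + Complex.exp (-z * Complex.I)) / 2 := rfl
  rw [h1, norm_div, Real.sinh_eq]
  have h2 : ‖Complex.exp (z * Complex.I)‖ = Real.exp (-z.im) := by
    rw [Complex.norm_exp]; simp
  have h3 : ‖Complex.exp (-z * Complex.I)‖ = Real.exp z.im := by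
    rw [Complex.norm_exp]; simp
  have h4 : ‖(2:ℂ)‖ = 2 := by norm_num
  rw [h4]
  have h5 := norm_sub_norm_le (Complex.exp (-z * Complex.I)) (-Complex.exp (z * Complex.I))
  rw [norm_neg, h2, h3, sub_neg_eq_add, add_comm] at h5
  linarith

lemma Lm_arg {χ : ℂ} {m : ℝ} (hm : 0 < m) (hχ : m ≤ χ.im) (θ : ℝ) :
    m ^ 2 / 4 ≤ ‖2 * Complex.cos (χ / 2) + 2 * Complex.cos (θ : ℂ)‖ := by
  have e : 2 * Complex.cos (χ / 2) + 2 * Complex.cos (θ : ℂ) =
      4 * (Complex.cos ((χ / 2 + θ) / 2) * Complex.cos ((χ / 2 - θ) / 2)) := by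
    have := Complex.cos_add_cos (χ / 2) (θ : ℂ)
    linear_combination 2 * this
  rw [e, norm_mul, norm_mul, show ‖(4:ℂ)‖ = 4 by norm_num]
  have key : ∀ z : ℂ, z.im = χ.im / 4 → m / 4 ≤ ‖Complex.cos z‖ := by
    intro z hz
    refine le_trans ?_ (sinh_le_cos z)
    have h1 : z.im ≤ Real.sinh z.im := Real.self_le_sinh_iff.2 (by rw [hz]; linarith)
    linarith
  have h1 := key ((χ / 2 + θ) / 2) (by simp; ring)
  have h2 := key ((χ / 2 - θ) / 2) (by simp; ring)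
  have h3 : m / 4 * (m / 4) ≤ ‖Complex.cos ((χ / 2 + θ) / 2)‖ * ‖Complex.cos ((χ / 2 - θ) / 2)‖ :=
    mul_le_mul h1 h2 (by positivity) (norm_nonneg _)
  nlinarith

lemma Lm_cont {χ : ℂ} (hχ : 0 < χ.im) : Continuous (Lm χ) := by
  unfold Lm
  refine Continuous.log (by fun_prop) fun θ => ?_
  have h1 := Lm_arg hχ le_rfl θ
  have : 0 < χ.im ^ 2 / 4 := by positivity
  exact (this.trans_le h1).ne'

lemma Lm_low {χ : ℂ} {m : ℝ} (hm : 0 < m) (hχ : m ≤ χ.im) (θ : ℝ) :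
    -|Real.log (m ^ 2 / 4)| ≤ Lm χ θ := by
  have h1 := Lm_arg hm hχ θ
  have h2 := Real.log_le_log (by positivity) h1
  exact (neg_abs_le _).trans h2

lemma int_small {f : ℝ → ℝ} (hf : Continuous f) {B : ℝ} (hB : ∀ x, -B ≤ f x) {a b a' b' : ℝ}
    (h1 : a' ≤ a) (_h2 : a ≤ b) (h3 : b ≤ b') :
    ∫ x in a..b, f x ≤ (∫ x in a'..b', f x) + B * ((a - a') + (b' - b)) := by
  have i1 := fun c d => hf.intervalIntegrable (μ := volume) c d
  have e1 : ∫ x in a'..b', f x = (∫ x in a'..a, f x) + (∫ x in a..b, f x) + ∫ x in b..b', f x := by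
    rw [intervalIntegral.integral_add_adjacent_intervals (i1 _ _) (i1 _ _),
      intervalIntegral.integral_add_adjacent_intervals (i1 _ _) (i1 _ _)]
  have h4 : ∫ x in a'..a, (-B) ≤ ∫ x in a'..a, f x :=
    intervalIntegral.integral_mono_on h1 intervalIntegrable_const (i1 _ _) fun x _ => hB x
  have h5 : ∫ x in b..b', (-B) ≤ ∫ x in b..b', f x :=
    intervalIntegral.integral_mono_on h3 intervalIntegrable_const (i1 _ _) fun x _ => hB x
  rw [intervalIntegral.integral_const, smul_eq_mul] at h4 h5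
  rw [e1]
  linarith

/-- bound of the product of the two products -/
theorem tail (hCNB : S_CNB) (hS0 : S_S0P) {ρs c₂ : ℝ} (hLMI : ∀ (χ : ℂ) (t x x' : ℝ),
      |χ.re| ≤ 2 * π / 3 → |χ.im| ≤ 9 / 5 → |t| ≤ π → |x| ≤ π → |x'| ≤ π →
      1 / (2 * π) * ((∫ θ in (t + x / 2 - (π + x') / 2)..(t + x / 2 + (π + x') / 2), Lm χ θ) +
        ∫ θ in (t - x / 2 - (π - x') / 2)..(t - x / 2 + (π - x') / 2), Lm χ θ) ≤
      (s0 χ).re - c₂ * min |x| ρs ^ 2 - c₂ * min |x'| ρs ^ 2 - c₂ * min |t| ρs ^ 2)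
    (hc₂ : 0 < c₂) {χ₀ : ℂ} (hZ : Zr χ₀) {ε : ℝ} (hε : 0 < ε) :
    ∃ ρ₂ : ℝ, 0 < ρ₂ ∧ ∀ᶠ N : ℕ in atTop, ∀ p q : ℕ, p + q + 1 = N → ∀ (ψ χ : ℂ) (t : ℝ),
      |ψ.re| ≤ π → |ψ.im| ≤ ρ₂ → χ ∈ Rz χ₀ ρ₂ → |t| ≤ π →
      ‖Cn N p χ (t + ψ / 2) * Cn N q χ (t - ψ / 2)‖ ≤
        Real.exp (N * ((s0 χ₀).re - c₂ * min |t| ρs ^ 2 + ε)) := by
  have hpi := Real.pi_pos
  have hpi3 := Real.pi_gt_three
  obtain ⟨z1, z2, z3, z4⟩ := hZ
  obtain ⟨τ, hτ, hC⟩ := hCNB (ε / 8) (by positivity)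
  have hcont : ContinuousAt (fun χ => (s0 χ).re) χ₀ := by
    have h1 : |χ₀.re| < π := abs_lt.2 ⟨by linarith, by linarith⟩
    exact Complex.continuous_re.continuousAt.comp ((hS0.1 χ₀ h1).1).continuousAt
  obtain ⟨r, hr, hr'⟩ := Metric.continuousAt_iff.1 hcont (ε / 4) (by positivity)
  obtain ⟨ρ₂, hρ₂⟩ : ∃ ρ₂ : ℝ, ρ₂ = min (min τ (r / 2)) (min (min (χ₀.im / 2) (1 / 4))
    (9 / 5 - χ₀.im)) := ⟨_, rfl⟩
  have k1 : ρ₂ ≤ τ := by rw [hρ₂]; exact (min_le_left _ _).trans (min_le_left _ _)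
  have k2 : ρ₂ ≤ r / 2 := by rw [hρ₂]; exact (min_le_left _ _).trans (min_le_right _ _)
  have k3 : ρ₂ ≤ χ₀.im / 2 := by
    rw [hρ₂]; exact (min_le_right _ _).trans ((min_le_left _ _).trans (min_le_left _ _))
  have k4 : ρ₂ ≤ 1 / 4 := by
    rw [hρ₂]; exact (min_le_right _ _).trans ((min_le_left _ _).trans (min_le_right _ _))
  have k5 : ρ₂ ≤ 9 / 5 - χ₀.im := by rw [hρ₂]; exact (min_le_right _ _).trans (min_le_right _ _)
  have k0 : 0 < ρ₂ := by
    rw [hρ₂]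
    exact lt_min (lt_min hτ (by positivity)) (lt_min (lt_min (by positivity) (by norm_num))
      (by linarith))
  set B : ℝ := |Real.log ((χ₀.im / 2) ^ 2 / 4)| with hB
  have hbig : ∀ᶠ N : ℕ in atTop, 4 * B / ε ≤ (N : ℝ) :=
    tendsto_natCast_atTop_atTop.eventually_ge_atTop _
  refine ⟨ρ₂, k0, ?_⟩
  filter_upwards [hC, hbig, eventually_gt_atTop 0] with N hC hbig hN0 p q hpq ψ χ t a1 a2 a3 a4
  have hN : (0:ℝ) < N := by exact_mod_cast hN0
  obtain ⟨b1, b2⟩ := a3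
  rw [Complex.sub_re] at b1
  rw [Complex.sub_im] at b2
  have b1' := abs_lt.1 b1
  have b2' := abs_lt.1 b2
  have g1 : |χ.re| ≤ 2 * π / 3 := abs_le.2 ⟨by linarith [b1'.1], by linarith [b1'.2]⟩
  have g2 : |χ.im| ≤ 9 / 5 := abs_le.2 ⟨by linarith [b2'.1], by linarith [b2'.2]⟩
  have g3 : χ₀.im / 2 ≤ χ.im := by linarith [b2'.1]
  have g4 : 0 < χ.im := by linarith
  have hLc := Lm_cont g4
  have hLl := Lm_low (by linarith : 0 < χ₀.im / 2) g3
  have hs : (s0 χ).re ≤ (s0 χ₀).re + ε / 4 := by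
    have h1 : dist χ χ₀ < r := by
      rw [dist_eq_norm]
      refine (Complex.norm_le_abs_re_add_abs_im _).trans_lt ?_
      rw [Complex.sub_re, Complex.sub_im]
      linarith
    have h2 := hr' h1
    rw [Real.dist_eq] at h2
    have := (abs_lt.1 h2).2
    linarith
  have hqN : (p : ℝ) + q + 1 = N := by exact_mod_cast hpq
  set x' : ℝ := π * ((p : ℝ) - q) / N with hx'
  have hx'1 : |x'| ≤ π := by
    rw [hx', abs_div, abs_mul, abs_of_pos hpi, abs_of_pos hN, div_le_iff₀ hN]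
    refine mul_le_mul_of_nonneg_left ?_ hpi.le
    rw [abs_le]
    have : (0:ℝ) ≤ p := Nat.cast_nonneg _
    have : (0:ℝ) ≤ q := Nat.cast_nonneg _
    constructor <;> linarith
  have e1 : π * p / N = (π + x') / 2 - π / (2 * N) := by
    rw [hx', ← hqN]
    have : (p : ℝ) + q + 1 ≠ 0 := by rw [hqN]; exact hN.ne'
    field_simp
    ring
  have e2 : π * q / N = (π - x') / 2 - π / (2 * N) := by
    rw [hx', ← hqN]
    have : (p : ℝ) + q + 1 ≠ 0 := by rw [hqN]; exact hN.ne'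
    field_simp
    ring
  have hp0 : 0 ≤ π * p / N := by positivity
  have hq0 : 0 ≤ π * q / N := by positivity
  have hd : 0 < π / (2 * N) := by positivity
  have hL := hLMI χ t ψ.re x' g1 g2 a4 a1 hx'1
  have c1 := hC p (by omega) (t + ψ.re / 2) (ψ.im / 2) χ (by
    rw [abs_div, abs_of_pos (by norm_num : (0:ℝ) < 2)]
    linarith [abs_nonneg ψ.im]) (g1.trans (by linarith)) g2
  have c2 := hC q (by omega) (t - ψ.re / 2) (-(ψ.im / 2)) χ (by
    rw [abs_neg, abs_div, abs_of_pos (by norm_num : (0:ℝ) < 2)]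
    linarith [abs_nonneg ψ.im]) (g1.trans (by linarith)) g2
  have f1 : ((t + ψ.re / 2 : ℝ) : ℂ) + ((ψ.im / 2 : ℝ) : ℂ) * Complex.I = t + ψ / 2 := by
    apply Complex.ext <;> simp
  have f2 : ((t - ψ.re / 2 : ℝ) : ℂ) + ((-(ψ.im / 2) : ℝ) : ℂ) * Complex.I = t - ψ / 2 := by
    apply Complex.ext <;> simp
  rw [f1] at c1
  rw [f2] at c2
  rw [norm_mul]
  refine (mul_le_mul c1 c2 (norm_nonneg _) (Real.exp_pos _).le).trans ?_
  rw [← Real.exp_add, Real.exp_le_exp, ← mul_add]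
  refine mul_le_mul_of_nonneg_left ?_ hN.le
  have i1 := int_small hLc hLl (a := t + ψ.re / 2 - π * p / N) (b := t + ψ.re / 2 + π * p / N)
    (a' := t + ψ.re / 2 - (π + x') / 2) (b' := t + ψ.re / 2 + (π + x') / 2)
    (by linarith) (by linarith) (by linarith)
  have i2 := int_small hLc hLl (a := t - ψ.re / 2 - π * q / N) (b := t - ψ.re / 2 + π * q / N)
    (a' := t - ψ.re / 2 - (π - x') / 2) (b' := t - ψ.re / 2 + (π - x') / 2)
    (by linarith) (by linarith) (by linarith)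
  have e3 : (t + ψ.re / 2 - π * p / N - (t + ψ.re / 2 - (π + x') / 2)) +
      (t + ψ.re / 2 + (π + x') / 2 - (t + ψ.re / 2 + π * p / N)) = π / N := by
    rw [e1]
    ring
  have e4 : (t - ψ.re / 2 - π * q / N - (t - ψ.re / 2 - (π - x') / 2)) +
      (t - ψ.re / 2 + (π - x') / 2 - (t - ψ.re / 2 + π * q / N)) = π / N := by
    rw [e2]
    ring
  rw [e3] at i1
  rw [e4] at i2
  have hBN : B / N ≤ ε / 4 := by
    rw [div_le_iff₀ hε] at hbig
    rw [div_le_iff₀ hN]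
    linarith
  have hsq1 : 0 ≤ c₂ * min |ψ.re| ρs ^ 2 := by positivity
  have hsq2 : 0 ≤ c₂ * min |x'| ρs ^ 2 := by positivity
  have h2p : 0 < 1 / (2 * π) := by positivity
  have j1 := mul_le_mul_of_nonneg_left (add_le_add i1 i2) h2p.le
  have e5 : 1 / (2 * π) * ((∫ θ in (t + ψ.re / 2 - (π + x') / 2)..(t + ψ.re / 2 + (π + x') / 2),
      Lm χ θ) + B * (π / N) + ((∫ θ in (t - ψ.re / 2 - (π - x') / 2)..(t - ψ.re / 2 +
        (π - x') / 2), Lm χ θ) + B * (π / N))) =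
      1 / (2 * π) * ((∫ θ in (t + ψ.re / 2 - (π + x') / 2)..(t + ψ.re / 2 + (π + x') / 2),
      Lm χ θ) + ∫ θ in (t - ψ.re / 2 - (π - x') / 2)..(t - ψ.re / 2 +
        (π - x') / 2), Lm χ θ) + B / N := by
    field_simp
    ring
  rw [e5, mul_add] at j1
  linarith

end Pool.Agent.Y319.CG
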